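import Pool.Agent.PWF.St

/-!
# Campaign PWF, module Bas: calculus of the moves on lists
-/

set_option autoImplicit false

namespace Pool.Agent.PWF

open Pool.Agent.PW Pool.Agent.PWM Pool.Agent.PWB Pool.Agent.PWX

section

variable {Q : Type} [Group Q]

private theorem Bas_refl (l : List (Q × Q)) : LG l l :=
  ⟨rfl, fun _ x hx => ⟨x, Go.refl x, hx⟩⟩

private theorem Bas_trans {l l' l'' : List (Q × Q)} (h1 : LG l l') (h2 : LG l' l'') :
    LG l l'' := by
  refine ⟨h1.1.trans h2.1, fun m x hx => ?_⟩
  obtain ⟨y, hy, hy'⟩ := h1.2 m x hx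
  obtain ⟨z, hz, hz'⟩ := h2.2 m y hy'
  rw [← h1.1] at hz
  exact ⟨z, hy.trans hz, hz'⟩

private theorem Bas_symm (hSym : St_Sym) [Finite Q] {l l' : List (Q × Q)} (h : LG l l') :
    LG l' l := by
  classical
  refine ⟨h.1.symm, fun m x' hx' => ?_⟩
  have hex : ∃ x : ℕ → Q × Q, At m l x ∧ ∀ k, k < m ∨ m + l.length ≤ k → x k = x' k := by
    refine ⟨fun k => if hk : m ≤ k ∧ k - m < l.length then l[k - m] else x' k, ?_, ?_⟩
    · intro i hi
      have h1 : m ≤ m + i ∧ m + i - m < l.length := ⟨by omega, by omega⟩
      simp only [dif_pos h1]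
      congr 1
      omega
    · intro k hk
      have h1 : ¬ (m ≤ k ∧ k - m < l.length) := by omega
      simp only [dif_neg h1]
  obtain ⟨x, hx, hxo⟩ := hex
  obtain ⟨y, hy, hy'⟩ := h.2 m x hx
  have hyx : y = x' := by
    funext k
    by_cases hk : k < m ∨ m + l.length ≤ k
    · rw [hy.out hk, hxo k hk]
    · push Not at hk
      have h3 : k - m < l'.length := by
        have := h.1
        omega
      have h4 := hy' (k - m) h3
      have h5 := hx' (k - m) h3
      have h6 : m + (k - m) = k := by omega
      rw [h6] at h4 h5
      rw [h4, h5]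
  rw [hyx] at hy
  have h7 := hSym hy
  rw [h.1] at h7
  exact ⟨x, h7, hx⟩

private theorem Bas_app (p : List (Q × Q)) {l l' : List (Q × Q)} (q : List (Q × Q))
    (h : LG l l') : LG (p ++ l ++ q) (p ++ l' ++ q) := by
  have hl := h.1
  refine ⟨by simp only [List.length_append, hl], fun m x hx => ?_⟩
  have h1 : At (m + p.length) l x := by
    intro i hi
    have h2 : p.length + i < (p ++ l ++ q).length := by
      simp only [List.length_append]
      omega
    have h3 := hx (p.length + i) h2
    rw [← add_assoc] at h3
    rw [h3, List.getElem_append_left (by simp only [List.length_append]; omega),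
      List.getElem_append_right (by omega)]
    congr 1
    omega
  obtain ⟨y, hy, hy'⟩ := h.2 (m + p.length) x h1
  refine ⟨y, hy.mono (by omega) (by simp only [List.length_append]; omega), ?_⟩
  intro i hi
  simp only [List.length_append] at hi
  by_cases h4 : i < p.length
  · rw [hy.out (Or.inl (by omega)), hx i (by simp only [List.length_append]; omega),
      List.getElem_append_left (by simp only [List.length_append]; omega),
      List.getElem_append_left h4,
      List.getElem_append_left (by simp only [List.length_append]; omega),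
      List.getElem_append_left h4]
  · by_cases h5 : i < p.length + l.length
    · have h6 := hy' (i - p.length) (by omega)
      have h7 : m + p.length + (i - p.length) = m + i := by omega
      rw [h7] at h6
      rw [h6, List.getElem_append_left (by simp only [List.length_append]; omega),
        List.getElem_append_right (by omega)]
    · rw [hy.out (Or.inr (by omega)), hx i (by simp only [List.length_append]; omega),
        List.getElem_append_right (by simp only [List.length_append]; omega),
        List.getElem_append_right (by simp only [List.length_append]; omega)]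
      simp only [List.length_append, hl]

omit [Group Q] in
private theorem Bas_two {p q : Q × Q} {x : ℕ → Q × Q} {m : ℕ} (h : At m [p, q] x) :
    x m = p ∧ x (m + 1) = q :=
  ⟨h 0 (by simp), h 1 (by simp)⟩

omit [Group Q] in
private theorem Bas_At_two {p q : Q × Q} {y : ℕ → Q × Q} {m : ℕ} (h1 : y m = p)
    (h2 : y (m + 1) = q) : At m [p, q] y := by
  intro i hi
  simp only [List.length_cons, List.length_nil] at hi
  have h3 : i = 0 ∨ i = 1 := by omega
  rcases h3 with rfl | rfl
  · exact h1
  · exact h2

private theorem Bas_swap (p q : Q × Q) : LG [p, q] [q, cj (dd q)⁻¹ p] := by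
  refine ⟨rfl, fun m x hx => ?_⟩
  obtain ⟨h1, h2⟩ := Bas_two hx
  refine ⟨_, Go.single (Step.swap x m le_rfl (by simp)), ?_⟩
  apply Bas_At_two
  · rw [Function.update_of_ne (by omega), Function.update_self, h2]
  · rw [Function.update_self, h1, h2]

private theorem Bas_rot (p : Q × Q) : LG [p] [rt p] := by
  refine ⟨rfl, fun m x hx => ?_⟩
  have h1 : x m = p := hx 0 (by simp)
  refine ⟨_, Go.single (Step.rot x m le_rfl (by simp)), ?_⟩
  intro i hi
  simp only [List.length_cons, List.length_nil] at hi
  have h3 : i = 0 := by omega
  subst h3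
  show Function.update x m (rt (x m)) m = rt p
  rw [Function.update_self, h1]

private theorem Bas_slide (p q : Q × Q) : LG [p, q] [(p.1, (tv q)⁻¹ * p.2),
    ((tv q)⁻¹ * (p.2 * p.1 * p.2⁻¹) * tv q * q.1, q.2)] := by
  refine ⟨rfl, fun m x hx => ?_⟩
  obtain ⟨h1, h2⟩ := Bas_two hx
  refine ⟨_, Go.single (Step.slide x m le_rfl (by simp)), ?_⟩
  apply Bas_At_two
  · rw [Function.update_of_ne (by omega), Function.update_self, h1, h2]
  · rw [Function.update_self, h1, h2]

end

theorem thm_Bas (hSym : St_Sym) : St_Bas :=
  ⟨fun l => Bas_refl l, fun _ _ _ h1 h2 => Bas_trans h1 h2, fun _ _ h => Bas_symm hSym h,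
    fun p _ _ q h => Bas_app p q h, fun p q => Bas_swap p q, fun p => Bas_rot p,
    fun p q => Bas_slide p q⟩

end Pool.Agent.PWF
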