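import Pool.Agent.PWF.St

/-!
# Campaign PWF, module Blk: pushing through a block
-/

set_option autoImplicit false

namespace Pool.Agent.PWF

open Pool.Agent.PW Pool.Agent.PWM Pool.Agent.PWB Pool.Agent.PWX

/-- the elements for which the push through `L` is possible -/
def BlkP {Q : Type} [Group Q] (V : Subgroup Q) (L : List (Q × Q)) (u : Q) : Prop :=
  ∀ x ∈ V, ∀ (b : Q) (L' : List (Q × Q)), Eqv V L L' →
    ∃ v ∈ V, ∃ L'', Eqv V L L'' ∧ Ps V x b L' (u * b * v) L''

theorem Blk_sub (hPsb : St_Psb) {Q : Type} [Group Q] [Finite Q] (V : Subgroup Q) (hV : V.Normal)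
    (L : List (Q × Q)) : ∃ E : Subgroup Q, ∀ u, u ∈ E ↔ BlkP V L u := by
  obtain ⟨hrefl, htrans, -⟩ := hPsb V hV
  have h1 : BlkP V L 1 := by
    intro x _ b L' hL
    exact ⟨1, V.one_mem, L', hL, by rw [one_mul, mul_one]; exact hrefl x b L'⟩
  have hm : ∀ u₁ u₂, BlkP V L u₁ → BlkP V L u₂ → BlkP V L (u₁ * u₂) := by
    intro u₁ u₂ h₁ h₂ x hx b L' hL
    obtain ⟨v₂, hv₂, L₂, hL₂, hp₂⟩ := h₂ x hx b L' hL
    obtain ⟨v₁, hv₁, L₁, hL₁, hp₁⟩ := h₁ x hx (u₂ * b * v₂) L₂ hL₂
    refine ⟨v₂ * v₁, V.mul_mem hv₂ hv₁, L₁, hL₁, ?_⟩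
    have h3 := htrans x b _ _ _ _ _ hp₂ hp₁
    have e : u₁ * (u₂ * b * v₂) * v₁ = u₁ * u₂ * b * (v₂ * v₁) := by group
    rwa [e] at h3
  refine ⟨{ carrier := {u | BlkP V L u}, one_mem' := h1, mul_mem' := fun {a b} ha hb => hm a b ha hb,
            inv_mem' := ?_ }, fun u => Iff.rfl⟩
  intro u hu
  have hpow : ∀ n : ℕ, BlkP V L (u ^ n) := by
    intro n
    induction n with
    | zero => rw [pow_zero]; exact h1
    | succ n ih => rw [pow_succ]; exact hm _ _ ih hu
  have h2 : u ^ (Nat.card Q - 1) = u⁻¹ := by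
    apply eq_inv_of_mul_eq_one_left
    rw [← pow_succ, Nat.sub_add_cancel Nat.card_pos]
    exact pow_card_eq_one'
  change BlkP V L u⁻¹
  rw [← h2]
  exact hpow _

theorem Blk_mk {Q : Type} [Group Q] (V : Subgroup Q) [V.Normal] {a b : Q} (h : a⁻¹ * b ∈ V) :
    (QuotientGroup.mk' V) a = (QuotientGroup.mk' V) b :=
  QuotientGroup.eq.2 h

theorem Blk_one {Q : Type} [Group Q] (V : Subgroup Q) [V.Normal] {a : Q} :
    (QuotientGroup.mk' V) a = 1 ↔ a ∈ V := QuotientGroup.eq_one_iff a

theorem thm_Blk (hEqb : St_Eqb) (hPsb : St_Psb) (hSld : St_Sld) : St_Blk := by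
  intro Q _ _ V hV hcom
  have hSld' := hSld V hV hcom
  obtain ⟨hrefl, htrans, hmul, hctx, hskip⟩ := hPsb V hV
  have key : ∀ (L : List (Q × Q)), ∀ u ∈ Gn L, BlkP V L u := by
    intro L
    induction L with
    | nil =>
      intro u hu
      obtain ⟨E, hE⟩ := Blk_sub hPsb V hV ([] : List (Q × Q))
      rw [← hE]
      have h1 : Gn ([] : List (Q × Q)) ≤ E := by
        unfold Gn
        rw [Subgroup.closure_le]
        rintro q ⟨p, hp, -⟩
        simp at hp
      exact h1 hu
    | cons H L₁ ih =>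
      obtain ⟨α, β⟩ := H
      obtain ⟨E, hE⟩ := Blk_sub hPsb V hV ((α, β) :: L₁)
      have hα : α⁻¹ ∈ E := by
        rw [hE]
        intro x hx b L' hL
        cases hL with
        | @cons _ H' _ L₁' hH hL₁ =>
        obtain ⟨α', β'⟩ := H'
        obtain ⟨h1, h2⟩ := hH
        have hη : α'⁻¹ * (b * x * b⁻¹) * α' ∈ V := by
          have h3 := hV.conj_mem _ (hV.conj_mem x hx b) α'⁻¹
          rwa [inv_inv] at h3
        obtain ⟨η, hηe⟩ : ∃ η, η = α'⁻¹ * (b * x * b⁻¹) * α' := ⟨_, rfl⟩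
        have hp := hctx x b _ _ _ L₁' ((hSld' x hx b α' β' η).1 hηe)
        rw [← hηe] at hη
        have e1 := Blk_mk V (a := α) (b := α') h1
        have e2 := Blk_mk V (a := β) (b := β') h2
        have e3 := (Blk_one V).2 hη
        refine ⟨b⁻¹ * (α * α'⁻¹) * b, ?_, (η * α' * η⁻¹, β' * η⁻¹) :: L₁', ?_, ?_⟩
        · rw [← Blk_one V]
          simp only [map_mul, map_inv, e1]
          group
        · exact List.Forall₂.cons (R := Eqp V) (a := (α, β)) (b := (η * α' * η⁻¹, β' * η⁻¹))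
            ⟨by rw [← Blk_one V]; simp only [map_mul, map_inv, e1, e3]; group,
              by rw [← Blk_one V]; simp only [map_mul, map_inv, e2, e3]; group⟩ hL₁
        · have e : α⁻¹ * b * (b⁻¹ * (α * α'⁻¹) * b) = α'⁻¹ * b := by group
          rw [e]
          exact hp
      have hβ : β ∈ E := by
        rw [hE]
        intro x hx b L' hL
        cases hL with
        | @cons _ H' _ L₁' hH hL₁ =>
        obtain ⟨α', β'⟩ := H'
        obtain ⟨h1, h2⟩ := hH
        have hη : β' * (b * x * b⁻¹) * β'⁻¹ ∈ V := hV.conj_mem _ (hV.conj_mem x hx b) β'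
        obtain ⟨η, hηe⟩ : ∃ η, η = β' * (b * x * b⁻¹) * β'⁻¹ := ⟨_, rfl⟩
        have hp := hctx x b _ _ _ L₁' ((hSld' x hx b α' β' η).2 hηe)
        rw [← hηe] at hη
        have e1 := Blk_mk V (a := α) (b := α') h1
        have e2 := Blk_mk V (a := β) (b := β') h2
        have e3 := (Blk_one V).2 hη
        refine ⟨b⁻¹ * (β⁻¹ * β') * b, ?_,
          (η * β'⁻¹ * η⁻¹ * β' * α' * η⁻¹, η * β' * η⁻¹) :: L₁', ?_, ?_⟩
        · rw [← Blk_one V]
          simp only [map_mul, map_inv, e2]
          group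
        · exact List.Forall₂.cons (R := Eqp V) (a := (α, β))
            (b := (η * β'⁻¹ * η⁻¹ * β' * α' * η⁻¹, η * β' * η⁻¹))
            ⟨by rw [← Blk_one V]; simp only [map_mul, map_inv, e1, e3]; group,
              by rw [← Blk_one V]; simp only [map_mul, map_inv, e2, e3]; group⟩ hL₁
        · have e : β * b * (b⁻¹ * (β⁻¹ * β') * b) = β' * b := by group
          rw [e]
          exact hp
      have hD : dd (α, β) ∈ E := by
        have hα' : α ∈ E := by
          have := E.inv_mem hα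
          rwa [inv_inv] at this
        exact E.mul_mem (E.mul_mem (E.mul_mem hα' hβ) (E.inv_mem hα')) (E.inv_mem hβ)
      have hw : ∀ w ∈ Gn L₁, w ∈ E := by
        intro w hw
        have h5 : dd (α, β) * w * (dd (α, β))⁻¹ ∈ E := by
          rw [hE]
          intro x hx b L' hL
          cases hL with
          | @cons _ H' _ L₁' hH hL₁ =>
          obtain ⟨h1, h2⟩ := hH
          obtain ⟨D', hD'⟩ : ∃ D', D' = dd H' := ⟨_, rfl⟩
          have hDp : Dp [H'] = D' := by
            rw [hD']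
            simp [Dp]
          have hx' : D'⁻¹ * x * D' ∈ V := by
            have h3 := hV.conj_mem x hx D'⁻¹
            rwa [inv_inv] at h3
          obtain ⟨v, hv, L₁'', hL'', hp⟩ := ih w hw (D'⁻¹ * x * D') hx' (D'⁻¹ * b * D') L₁' hL₁
          have hq := hskip x b (D' * w * D'⁻¹ * b * (D' * v * D'⁻¹)) [H'] L₁' L₁'' (by
            rw [hDp]
            have e : D'⁻¹ * (D' * w * D'⁻¹ * b * (D' * v * D'⁻¹)) * D' =
              w * (D'⁻¹ * b * D') * v := by group
            rw [e]
            exact hp)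
          have e1 := Blk_mk V h1
          have e2 := Blk_mk V h2
          have e3 : (QuotientGroup.mk' V) D' = (QuotientGroup.mk' V) (dd (α, β)) := by
            rw [hD']
            simp only [dd, map_mul, map_inv]
            rw [e1, e2]
          have e4 := (Blk_one V).2 hv
          refine ⟨b⁻¹ * (dd (α, β) * w * (dd (α, β))⁻¹)⁻¹ * (D' * w * D'⁻¹) * b * (D' * v * D'⁻¹),
            ?_, H' :: L₁'', List.Forall₂.cons ⟨h1, h2⟩ hL'', ?_⟩
          · rw [← Blk_one V]
            simp only [map_mul, map_inv, e3, e4]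
            group
          · have e : dd (α, β) * w * (dd (α, β))⁻¹ * b *
              (b⁻¹ * (dd (α, β) * w * (dd (α, β))⁻¹)⁻¹ * (D' * w * D'⁻¹) * b * (D' * v * D'⁻¹)) =
              D' * w * D'⁻¹ * b * (D' * v * D'⁻¹) := by group
            rw [e]
            exact hq
        have h6 := E.mul_mem (E.mul_mem (E.inv_mem hD) h5) hD
        have e : (dd (α, β))⁻¹ * (dd (α, β) * w * (dd (α, β))⁻¹) * dd (α, β) = w := by group
        rwa [e] at h6
      intro u hu
      rw [← hE]
      have h1 : Gn ((α, β) :: L₁) ≤ E := by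
        unfold Gn
        rw [Subgroup.closure_le]
        rintro q ⟨p, hp, hq⟩
        rcases List.mem_cons.1 hp with rfl | hp
        · rcases hq with rfl | rfl
          · have := E.inv_mem hα
            rwa [inv_inv] at this
          · exact hβ
        · exact hw q (Subgroup.subset_closure ⟨p, hp, hq⟩)
      exact h1 hu
  intro x hx b L L' hL u hu
  exact key L u hu x hx b L' hL

end Pool.Agent.PWF
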