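import Pool.Agent.PWF.St

/-!
# Campaign PWF: calculus of the congruences
-/

set_option autoImplicit false

namespace Pool.Agent.PWF

open Pool.Agent.PW Pool.Agent.PWM Pool.Agent.PWB Pool.Agent.PWX

variable {Q : Type} [Group Q]

theorem Eqb_refl (V : Subgroup Q) (p : Q × Q) : Eqp V p p := by
  constructor <;> simp [V.one_mem]

theorem Eqb_symm {V : Subgroup Q} {p q : Q × Q} (h : Eqp V p q) : Eqp V q p := by
  constructor
  · have := V.inv_mem h.1
    simpa using this
  · have := V.inv_mem h.2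
    simpa using this

theorem Eqb_trans {V : Subgroup Q} {p q r : Q × Q} (h : Eqp V p q) (h' : Eqp V q r) :
    Eqp V p r := by
  constructor
  · have := V.mul_mem h.1 h'.1
    simpa [mul_assoc] using this
  · have := V.mul_mem h.2 h'.2
    simpa [mul_assoc] using this

theorem Eqb_dp {V : Subgroup Q} [V.Normal] {L L' : List (Q × Q)} (h : Eqv V L L') :
    (QuotientGroup.mk' V) (Dp L) = (QuotientGroup.mk' V) (Dp L') := by
  induction h with
  | nil => rfl
  | cons h1 h2 ih =>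
    rename_i p q l l'
    have e1 : (QuotientGroup.mk' V) p.1 = (QuotientGroup.mk' V) q.1 := QuotientGroup.eq.mpr h1.1
    have e2 : (QuotientGroup.mk' V) p.2 = (QuotientGroup.mk' V) q.2 := QuotientGroup.eq.mpr h1.2
    have e3 : Dp (p :: l) = dd p * Dp l := by simp [Dp]
    have e4 : Dp (q :: l') = dd q * Dp l' := by simp [Dp]
    rw [e3, e4, map_mul, map_mul, ih]
    congr 1
    simp only [dd, map_mul, map_inv, e1, e2]

theorem Eqb_mem {V : Subgroup Q} {L L' : List (Q × Q)} (h : Eqv V L L') :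
    ∀ p ∈ L, ∃ q ∈ L', Eqp V p q := by
  induction h with
  | nil => intro p hp; simp at hp
  | cons h1 h2 ih =>
    rename_i p q l l'
    intro r hr
    rcases List.mem_cons.mp hr with e | e
    · subst e
      exact ⟨q, by simp, h1⟩
    · obtain ⟨s, hs, hs'⟩ := ih r e
      exact ⟨s, by simp [hs], hs'⟩

theorem Eqb_gn {V A : Subgroup Q} {L L' : List (Q × Q)} (hV : V ≤ A) (h : Eqv V L L') :
    Gn L ⊔ A ≤ Gn L' ⊔ A := by
  refine sup_le ?_ le_sup_right
  unfold Gn
  rw [Subgroup.closure_le]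
  rintro x ⟨p, hp, hx⟩
  obtain ⟨q, hq, hpq⟩ := Eqb_mem h p hp
  have h1 : q.1 ∈ Subgroup.closure {x | ∃ p ∈ L', x = p.1 ∨ x = p.2} ⊔ A :=
    Subgroup.mem_sup_left (Subgroup.subset_closure ⟨q, hq, Or.inl rfl⟩)
  have h2 : q.2 ∈ Subgroup.closure {x | ∃ p ∈ L', x = p.1 ∨ x = p.2} ⊔ A :=
    Subgroup.mem_sup_left (Subgroup.subset_closure ⟨q, hq, Or.inr rfl⟩)
  have h3 : (p.1⁻¹ * q.1)⁻¹ ∈ Subgroup.closure {x | ∃ p ∈ L', x = p.1 ∨ x = p.2} ⊔ A :=
    Subgroup.mem_sup_right (A.inv_mem (hV hpq.1))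
  have h4 : (p.2⁻¹ * q.2)⁻¹ ∈ Subgroup.closure {x | ∃ p ∈ L', x = p.1 ∨ x = p.2} ⊔ A :=
    Subgroup.mem_sup_right (A.inv_mem (hV hpq.2))
  rcases hx with e | e
  · have h5 := Subgroup.mul_mem _ h1 h3
    rw [e]
    simpa using h5
  · have h5 := Subgroup.mul_mem _ h2 h4
    rw [e]
    simpa using h5

theorem thm_Eqb : St_Eqb := by
  intro Q _ V hV
  have hsym : ∀ L L' : List (Q × Q), Eqv V L L' → Eqv V L' L := by
    intro L L' h
    have h1 : List.Forall₂ (Eqp V) L' L := by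
      have h2 := List.Forall₂.flip h
      exact h2.imp (fun _ _ h3 => Eqb_symm h3)
    exact h1
  refine ⟨fun L => List.forall₂_same.mpr (fun p _ => Eqb_refl V p), hsym, ?_, ?_, ?_, ?_⟩
  · intro L L' L'' h h'
    unfold Eqv at *
    induction h generalizing L'' with
    | nil =>
      cases h'
      exact List.Forall₂.nil
    | cons h1 h2 ih =>
      cases h' with
      | cons h3 h4 => exact List.Forall₂.cons (Eqb_trans h1 h3) (ih _ h4)
  · intro L L' h
    exact ⟨List.Forall₂.length_eq h, QuotientGroup.eq.mp (Eqb_dp h)⟩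
  · intro A L L' hA h hL
    exact top_le_iff.mp (hL ▸ Eqb_gn hA h)
  · intro hcom D D' x hD hx
    obtain ⟨v, hv⟩ : ∃ v, v = D⁻¹ * D' := ⟨_, rfl⟩
    have hvV : v ∈ V := hv ▸ hD
    have hD' : D' = D * v := by rw [hv]; group
    have h1 : D⁻¹ * x * D ∈ V := by
      have := hV.conj_mem x hx D⁻¹
      simpa using this
    have h2 := hcom _ h1 v hvV
    have h3 := hcom _ hx v hvV
    subst hD'
    constructor
    · calc D⁻¹ * x * D = v⁻¹ * (v * (D⁻¹ * x * D)) := by group
        _ = v⁻¹ * (D⁻¹ * x * D * v) := by rw [h2]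
        _ = (D * v)⁻¹ * x * (D * v) := by group
    · calc D * x * D⁻¹ = D * (x * v) * v⁻¹ * D⁻¹ := by group
        _ = D * (v * x) * v⁻¹ * D⁻¹ := by rw [h3]
        _ = D * v * x * (D * v)⁻¹ := by group

end Pool.Agent.PWF
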