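import Pool.Agent.PWF.St

/-!
# Campaign PWF, module Fre: a handle whose first value is `1` is pushed freely
-/

set_option autoImplicit false

namespace Pool.Agent.PWF

open Pool.Agent.PW Pool.Agent.PWM Pool.Agent.PWB Pool.Agent.PWX

private theorem Fre_eqp {Q : Type} [Group Q] {p q : Q × Q} (h : Eqp (⊥ : Subgroup Q) p q) :
    p = q := by
  obtain ⟨h1, h2⟩ := h
  rw [Subgroup.mem_bot, inv_mul_eq_one] at h1 h2
  exact Prod.ext h1 h2

private theorem Fre_refl {Q : Type} [Group Q] (V : Subgroup Q) (L : List (Q × Q)) :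
    Eqv V L L := by
  unfold Eqv
  induction L with
  | nil => exact List.Forall₂.nil
  | cons p L ih =>
    refine List.Forall₂.cons ⟨?_, ?_⟩ ih
    · rw [inv_mul_cancel]
      exact V.one_mem
    · rw [inv_mul_cancel]
      exact V.one_mem

private theorem Fre_eq {Q : Type} [Group Q] {L L' : List (Q × Q)}
    (h : Eqv (⊥ : Subgroup Q) L L') : L = L' := by
  unfold Eqv at h
  induction h with
  | nil => rfl
  | cons h1 _ ih => rw [Fre_eqp h1, ih]

theorem thm_Fre (hBlk : St_Blk) : St_Fre := by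
  intro Q _ _ L hL b b'
  have hu : b' * b⁻¹ ∈ Gn L := by
    rw [hL]
    exact Subgroup.mem_top _
  obtain ⟨v, hv, L'', hL'', h⟩ := hBlk (⊥ : Subgroup Q) inferInstance (fun x hx y hy => by
    rw [Subgroup.mem_bot] at hx hy
    rw [hx, hy]) 1 (Subgroup.one_mem _) b L L (Fre_refl _ L) (b' * b⁻¹) hu
  rw [Subgroup.mem_bot] at hv
  have h1 := h 1 (Subgroup.one_mem _)
  rw [← Fre_eq hL'', hv] at h1
  simpa using h1

end Pool.Agent.PWF
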