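import Pool.Agent.PWF.St

/-!
# Campaign PWF, module Psb: calculus of pushes
-/

set_option autoImplicit false

namespace Pool.Agent.PWF

open Pool.Agent.PW Pool.Agent.PWM Pool.Agent.PWB Pool.Agent.PWX

theorem Psb_dp_cons {Q : Type} [Group Q] (H : Q × Q) (P : List (Q × Q)) :
    Dp (H :: P) = dd H * Dp P := by
  unfold Dp
  rw [List.map_cons, List.prod_cons]

/-- skip over one handle -/
theorem Psb_one (hBas : St_Bas) {Q : Type} [Group Q] [Finite Q] (V : Subgroup Q) (hV : V.Normal)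
    (x b b' : Q) (H : Q × Q) (L L' : List (Q × Q))
    (h : Ps V ((dd H)⁻¹ * x * dd H) ((dd H)⁻¹ * b * dd H) L ((dd H)⁻¹ * b' * dd H) L') :
    Ps V x b (H :: L) b' (H :: L') := by
  obtain ⟨_, htr, hsy, hap, hsw, _, _⟩ := hBas
  intro y hy
  have hy' : (dd H)⁻¹ * y * dd H ∈ V := by
    have h1 := hV.conj_mem y hy (dd H)⁻¹
    rwa [inv_inv] at h1
  have h1 := h _ hy'
  have e1 : ∀ c : Q, (dd H)⁻¹ * c * dd H * ((dd H)⁻¹ * y * dd H) =
      (dd H)⁻¹ * (c * y) * dd H := by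
    intro c
    group
  rw [e1, e1] at h1
  have e2 : ∀ c : Q, cj (dd H)⁻¹ (x, c * y) =
      ((dd H)⁻¹ * x * dd H, (dd H)⁻¹ * (c * y) * dd H) := by
    intro c
    unfold cj
    rw [inv_inv]
  have h2 : LG ((x, b * y) :: H :: L)
      (H :: ((dd H)⁻¹ * x * dd H, (dd H)⁻¹ * (b * y) * dd H) :: L) := by
    have h3 := hap [] _ _ L (hsw (x, b * y) H)
    rw [e2] at h3
    exact h3
  have h3 : LG ((x, b' * y) :: H :: L')
      (H :: ((dd H)⁻¹ * x * dd H, (dd H)⁻¹ * (b' * y) * dd H) :: L') := by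
    have h3 := hap [] _ _ L' (hsw (x, b' * y) H)
    rw [e2] at h3
    exact h3
  have h4 := hap [H] _ _ [] h1
  rw [List.append_nil, List.append_nil] at h4
  exact htr _ _ _ h2 (htr _ _ _ h4 (hsy _ _ h3))

theorem thm_Psb (hBas : St_Bas) : St_Psb := by
  intro Q _ _ V hV
  refine ⟨fun x b L y _ => hBas.1 _, fun x b b' b'' L L' L'' h h' y hy =>
    hBas.2.1 _ _ _ (h y hy) (h' y hy), ?_, ?_, ?_⟩
  · intro x b b' v L L' hv h y hy
    rw [mul_assoc, mul_assoc]
    exact h _ (V.mul_mem hv hy)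
  · intro x b b' L L' M h y hy
    exact hBas.2.2.2.1 [] _ _ M (h y hy)
  · intro x b b' P
    induction P generalizing x b b' with
    | nil =>
      intro L L' h
      have e1 : Dp ([] : List (Q × Q)) = 1 := rfl
      rw [e1, inv_one, one_mul, one_mul, one_mul, mul_one, mul_one, mul_one] at h
      exact h
    | cons H P ih =>
      intro L L' h
      rw [Psb_dp_cons] at h
      have e1 : ∀ c : Q, (dd H * Dp P)⁻¹ * c * (dd H * Dp P) =
          (Dp P)⁻¹ * ((dd H)⁻¹ * c * dd H) * Dp P := by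
        intro c
        group
      rw [e1, e1, e1] at h
      exact Psb_one hBas V hV x b b' H _ _ (ih _ _ _ L L' h)

end Pool.Agent.PWF
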