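import Pool.Agent.PWF.St
import Pool.Agent.PWX.Real

/-!
# PWF Rea: the moves on lists are realised by mapping classes
-/

set_option autoImplicit false

namespace Pool.Agent.PWF

open Pool.Agent.PW Pool.Agent.PWM Pool.Agent.PWB Pool.Agent.PWX

theorem Rea_len {Q : Type} [Group Q] {g n : ℕ} (ρ : F g n →* Q) (m k : ℕ) :
    (lst ρ m k).length = k := by
  simp [lst]

theorem Rea_at {Q : Type} [Group Q] {g n : ℕ} (ρ : F g n →* Q) (m k : ℕ) :
    At m (lst ρ m k) (vls ρ) := by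
  intro i hi
  simp [lst]

theorem thm_Rea : St_Rea := by
  intro Q _ g n m k ρ l' hmk h
  obtain ⟨hlen, h⟩ := h
  obtain ⟨y, hGo, hAt⟩ := h m (vls ρ) (Rea_at ρ m k)
  rw [Rea_len] at hGo hlen
  obtain ⟨φ, hφ, hv⟩ := st_Real ρ (hGo.mono (Nat.zero_le m) hmk)
  refine ⟨φ, hφ, ?_, ?_⟩
  · refine List.ext_getElem ?_ ?_
    · rw [Rea_len, hlen]
    · intro i h1 h2
      rw [← hAt i h2, ← hv]
      simp [lst]
  · intro l hl
    rw [hv]
    exact hGo.out hl

end Pool.Agent.PWF
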