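import Pool.Agent.PWF.St

/-!
# Campaign PWF: the two pushes around the letters of a handle (`St_Sld`)
-/

set_option autoImplicit false

namespace Pool.Agent.PWF

open Pool.Agent.PW Pool.Agent.PWM Pool.Agent.PWB Pool.Agent.PWX

/-- Conjugation by `b y` and by `b` agree on `x` if `x` and `y` commute. -/
theorem Sld_cj {Q : Type} [Group Q] (b x y : Q) (h : x * y = y * x) :
    b * y * x * (b * y)⁻¹ = b * x * b⁻¹ := by
  have h1 : b * y * x * (b * y)⁻¹ = b * (y * x) * y⁻¹ * b⁻¹ := by group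
  rw [h1, ← h]
  group

/-- The first push: the explicit lists. -/
theorem Sld_one {Q : Type} [Group Q] [Finite Q] (hBas : St_Bas) (x b y α β η : Q)
    (h : x * y = y * x) (hη : η = α⁻¹ * (b * x * b⁻¹) * α) :
    LG [(x, b * y), (α, β)] [(x, α⁻¹ * b * y), (η * α * η⁻¹, β * η⁻¹)] := by
  obtain ⟨-, htrans, hsymm, happ, -, hrot, hslide⟩ := hBas
  have h1 : LG [(x, b * y), (α, β)] [(x, b * y), rt (α, β)] := by
    have := happ [(x, b * y)] [(α, β)] [rt (α, β)] [] (hrot (α, β))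
    simpa using this
  have h2 := hslide (x, b * y) (rt (α, β))
  have h3 : LG [rt (η * α * η⁻¹, β * η⁻¹)] [(η * α * η⁻¹, β * η⁻¹)] :=
    hsymm _ _ (hrot _)
  have h4 : LG [(x, α⁻¹ * b * y), rt (η * α * η⁻¹, β * η⁻¹)]
      [(x, α⁻¹ * b * y), (η * α * η⁻¹, β * η⁻¹)] := by
    have := happ [(x, α⁻¹ * b * y)] _ _ [] h3
    simpa using this
  refine htrans _ _ _ h1 (htrans _ _ _ h2 ?_)
  have e : [((x, b * y).1, (tv (rt (α, β)))⁻¹ * (x, b * y).2),
      ((tv (rt (α, β)))⁻¹ * ((x, b * y).2 * (x, b * y).1 * (x, b * y).2⁻¹) * tv (rt (α, β)) *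
        (rt (α, β)).1, (rt (α, β)).2)] = [(x, α⁻¹ * b * y), rt (η * α * η⁻¹, β * η⁻¹)] := by
    rw [tv_rt]
    simp only [rt, List.cons.injEq, Prod.mk.injEq, and_true, true_and]
    rw [Sld_cj b x y h, ← hη]
    refine ⟨by group, by group, by group⟩
  rw [e]
  exact h4

/-- The second push: the explicit lists. -/
theorem Sld_two {Q : Type} [Group Q] [Finite Q] (hBas : St_Bas) (x b y α β η : Q)
    (h : x * y = y * x) (hη : η = β * (b * x * b⁻¹) * β⁻¹) :
    LG [(x, b * y), (α, β)]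
      [(x, β * b * y), (η * β⁻¹ * η⁻¹ * β * α * η⁻¹, η * β * η⁻¹)] := by
  obtain ⟨-, htrans, hsymm, happ, -, hrot, hslide⟩ := hBas
  have h0 : ∀ p : Q × Q, LG [p] [rt (rt p)] := fun p => htrans _ _ _ (hrot p) (hrot (rt p))
  have h1 : LG [(x, b * y), (α, β)] [(x, b * y), rt (rt (α, β))] := by
    have := happ [(x, b * y)] [(α, β)] [rt (rt (α, β))] [] (h0 (α, β))
    simpa using this
  have h2 := hslide (x, b * y) (rt (rt (α, β)))
  have h3 : LG [rt (rt (η * β⁻¹ * η⁻¹ * β * α * η⁻¹, η * β * η⁻¹))]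
      [(η * β⁻¹ * η⁻¹ * β * α * η⁻¹, η * β * η⁻¹)] := hsymm _ _ (h0 _)
  have h4 : LG [(x, β * b * y), rt (rt (η * β⁻¹ * η⁻¹ * β * α * η⁻¹, η * β * η⁻¹))]
      [(x, β * b * y), (η * β⁻¹ * η⁻¹ * β * α * η⁻¹, η * β * η⁻¹)] := by
    have := happ [(x, β * b * y)] _ _ [] h3
    simpa using this
  refine htrans _ _ _ h1 (htrans _ _ _ h2 ?_)
  have e : [((x, b * y).1, (tv (rt (rt (α, β))))⁻¹ * (x, b * y).2),
      ((tv (rt (rt (α, β))))⁻¹ * ((x, b * y).2 * (x, b * y).1 * (x, b * y).2⁻¹) *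
        tv (rt (rt (α, β))) * (rt (rt (α, β))).1, (rt (rt (α, β))).2)] =
      [(x, β * b * y), rt (rt (η * β⁻¹ * η⁻¹ * β * α * η⁻¹, η * β * η⁻¹))] := by
    rw [tv_rt2]
    simp only [rt, inv_inv, List.cons.injEq, Prod.mk.injEq, and_true, true_and]
    rw [Sld_cj b x y h, ← hη]
    refine ⟨by group, by group, by group⟩
  rw [e]
  exact h4

/-- (Sld) The two pushes around the letters of a handle. -/
theorem thm_Sld (hBas : St_Bas) : St_Sld := by
  intro Q _ _ V _ hcom x hx b α β η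
  constructor
  · intro hη y hy
    exact Sld_one hBas x b y α β η (hcom x hx y hy) hη
  · intro hη y hy
    exact Sld_two hBas x b y α β η (hcom x hx y hy) hη

end Pool.Agent.PWF
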