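import Pool.Agent.PWF.St
import Mathlib.GroupTheory.OrderOfElement

/-!
# Campaign PWF, module Sym: the moves can be undone
-/

set_option autoImplicit false

namespace Pool.Agent.PWF

open Pool.Agent.PW Pool.Agent.PWM Pool.Agent.PWB Pool.Agent.PWX

theorem Sym_fin {α : Type} [Finite α] {G : α → α} (hG : Function.Injective G) :
    ∃ k, G^[k + 1] = id := by
  obtain ⟨σ, hσ⟩ : ∃ σ : Equiv.Perm α, ⇑σ = G :=
    ⟨Equiv.ofBijective G (Finite.injective_iff_bijective.1 hG), rfl⟩
  have h := orderOf_pos σ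
  refine ⟨orderOf σ - 1, ?_⟩
  rw [Nat.sub_add_cancel h]
  have h2 := Equiv.Perm.iterate_eq_pow σ (orderOf σ)
  rw [pow_orderOf_eq_one, hσ] at h2
  rw [h2]
  rfl

theorem Sym_back {α : Type} {S : α → α → Prop} {f : α → α} (hS : ∀ x, S x (f x)) {k : ℕ}
    {x : α} (hk : f^[k + 1] x = x) : Relation.ReflTransGen S (f x) x := by
  have h : ∀ m, Relation.ReflTransGen S (f x) (f^[m + 1] x) := by
    intro m
    induction m with
    | zero => exact Relation.ReflTransGen.refl
    | succ m ih =>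
      rw [Function.iterate_succ_apply']
      exact ih.tail (hS _)
  have h1 := h k
  rwa [hk] at h1

section

variable {Q : Type}

/-- A map acting on the places `l, l + 1`. -/
def SymF (G : (Q × Q) × (Q × Q) → (Q × Q) × (Q × Q)) (l : ℕ) (x : ℕ → Q × Q) : ℕ → Q × Q :=
  Function.update (Function.update x l (G (x l, x (l + 1))).1) (l + 1) (G (x l, x (l + 1))).2

theorem SymF_l (G : (Q × Q) × (Q × Q) → (Q × Q) × (Q × Q)) (l : ℕ) (x : ℕ → Q × Q) :
    SymF G l x l = (G (x l, x (l + 1))).1 := by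
  unfold SymF
  rw [Function.update_of_ne (by omega), Function.update_self]

theorem SymF_s (G : (Q × Q) × (Q × Q) → (Q × Q) × (Q × Q)) (l : ℕ) (x : ℕ → Q × Q) :
    SymF G l x (l + 1) = (G (x l, x (l + 1))).2 := by
  unfold SymF
  rw [Function.update_self]

theorem SymF_o (G : (Q × Q) × (Q × Q) → (Q × Q) × (Q × Q)) (l : ℕ) (x : ℕ → Q × Q) {i : ℕ}
    (h1 : i ≠ l) (h2 : i ≠ l + 1) : SymF G l x i = x i := by
  unfold SymF
  rw [Function.update_of_ne h2, Function.update_of_ne h1]

theorem SymF_comp (G H : (Q × Q) × (Q × Q) → (Q × Q) × (Q × Q)) (l : ℕ) (x : ℕ → Q × Q) :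
    SymF G l (SymF H l x) = SymF (G ∘ H) l x := by
  funext i
  by_cases h1 : i = l
  · subst h1
    rw [SymF_l, SymF_l, SymF_l, SymF_s]
    rfl
  · by_cases h2 : i = l + 1
    · subst h2
      rw [SymF_s, SymF_s, SymF_l, SymF_s]
      rfl
    · rw [SymF_o _ _ _ h1 h2, SymF_o _ _ _ h1 h2, SymF_o _ _ _ h1 h2]

theorem SymF_id (l : ℕ) (x : ℕ → Q × Q) : SymF id l x = x := by
  funext i
  by_cases h1 : i = l
  · subst h1
    rw [SymF_l]
    rfl
  · by_cases h2 : i = l + 1
    · subst h2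
      rw [SymF_s]
      rfl
    · rw [SymF_o _ _ _ h1 h2]

theorem SymF_iter (G : (Q × Q) × (Q × Q) → (Q × Q) × (Q × Q)) (l : ℕ) (x : ℕ → Q × Q) (k : ℕ) :
    (SymF G l)^[k] x = SymF (G^[k]) l x := by
  induction k with
  | zero => exact (SymF_id l x).symm
  | succ k ih => rw [Function.iterate_succ_apply', ih, SymF_comp, Function.iterate_succ']

theorem Sym_one [Finite Q] {S : (ℕ → Q × Q) → (ℕ → Q × Q) → Prop}
    {G K : (Q × Q) × (Q × Q) → (Q × Q) × (Q × Q)} (hG : ∀ z, K (G z) = z) (l : ℕ)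
    (hS : ∀ x, S x (SymF G l x)) (x : ℕ → Q × Q) : Relation.ReflTransGen S (SymF G l x) x := by
  obtain ⟨k, hk⟩ := Sym_fin (Function.LeftInverse.injective hG)
  refine Sym_back hS (k := k) ?_
  rw [SymF_iter, hk, SymF_id]

end

theorem Sym_step {Q : Type} [Group Q] [Finite Q] {lo hi : ℕ} {x y : ℕ → Q × Q}
    (h : Step lo hi x y) : Go lo hi y x := by
  cases h with
  | swap l h1 h2 =>
    exact Sym_one (S := Step lo hi) (G := fun z => (z.2, cj (dd z.2)⁻¹ z.1))
      (K := fun z => (cj (dd z.1) z.2, z.1))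
      (fun z => by
        refine Prod.ext (Prod.ext ?_ ?_) rfl
        · simp only [cj]
          group
        · simp only [cj]
          group) l (fun x => Step.swap x l h1 h2) x
  | rot l h1 h2 =>
    have e : ∀ x : ℕ → Q × Q, SymF (fun z => (rt z.1, z.2)) l x =
        Function.update x l (rt (x l)) := by
      intro x
      funext i
      by_cases h1 : i = l
      · subst h1
        rw [SymF_l, Function.update_self]
      · rw [Function.update_of_ne h1]
        by_cases h2 : i = l + 1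
        · subst h2
          rw [SymF_s]
        · rw [SymF_o _ _ _ h1 h2]
    rw [← e x]
    exact Sym_one (S := Step lo hi) (G := fun z => (rt z.1, z.2))
      (K := fun z => ((z.1.1 * z.1.2 * z.1.1⁻¹, z.1.1⁻¹), z.2))
      (fun z => by
        refine Prod.ext (Prod.ext ?_ ?_) rfl
        · simp only [rt]
          group
        · simp only [rt]
          group) l (fun x => by
            rw [e x]
            exact Step.rot x l h1 h2) x
  | slide l h1 h2 =>
    exact Sym_one (S := Step lo hi)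
      (G := fun z => ((z.1.1, (tv z.2)⁻¹ * z.1.2),
        ((tv z.2)⁻¹ * (z.1.2 * z.1.1 * z.1.2⁻¹) * tv z.2 * z.2.1, z.2.2)))
      (K := fun z => ((z.1.1, tv ((z.1.2 * z.1.1 * z.1.2⁻¹)⁻¹ * z.2.1, z.2.2) * z.1.2),
        ((z.1.2 * z.1.1 * z.1.2⁻¹)⁻¹ * z.2.1, z.2.2)))
      (fun z => by
        have e : ((tv z.2)⁻¹ * z.1.2 * z.1.1 * ((tv z.2)⁻¹ * z.1.2)⁻¹)⁻¹ *
            ((tv z.2)⁻¹ * (z.1.2 * z.1.1 * z.1.2⁻¹) * tv z.2 * z.2.1) = z.2.1 := by
          group
        refine Prod.ext (Prod.ext rfl ?_) (Prod.ext ?_ rfl)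
        · simp only [e]
          show tv z.2 * ((tv z.2)⁻¹ * z.1.2) = z.1.2
          group
        · exact e) l (fun x => Step.slide x l h1 h2) x

/-- (Sym) The moves can be undone. -/
theorem thm_Sym : St_Sym := by
  intro Q _ _ lo hi x y h
  induction h with
  | refl => exact Go.refl _
  | tail _ h2 ih => exact (Sym_step h2).trans ih

end Pool.Agent.PWF
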