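import Pool.Agent.PWF.St

/-!
# PWF Abl: chief factors which consist of non-generators are commutative
-/

set_option autoImplicit false

namespace Pool.Agent.PWF

theorem Abl_core {G : Type} [Group G] [Finite G] (V : Subgroup G) (hV : V.Normal)
    (hmin : ∀ L : Subgroup G, L.Normal → L ≤ V → L = ⊥ ∨ L = V)
    (hgen : ∀ H : Subgroup G, H ⊔ V = ⊤ → H = ⊤) : ∀ x ∈ V, ∀ y ∈ V, x * y = y * x := by
  by_cases hb : V = ⊥
  · intro x hx y hy
    rw [hb, Subgroup.mem_bot] at hx
    subst hx
    simp
  haveI : Nontrivial V := (Subgroup.nontrivial_iff_ne_bot V).2 hb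
  have hcard : Nat.card V ≠ 1 := (Finite.one_lt_card (α := V)).ne'
  obtain ⟨p, hp, hdvd⟩ := Nat.exists_prime_and_dvd hcard
  haveI : Fact p.Prime := ⟨hp⟩
  let P : Sylow p V := default
  have hP0 : (P : Subgroup V) ≠ ⊥ := P.ne_bot_of_dvd_card hdvd
  have hfr := Sylow.normalizer_sup_eq_top (N := V) P
  have hnor : ((P : Subgroup V).map V.subtype).Normal :=
    Subgroup.normalizer_eq_top_iff.1 (hgen _ hfr)
  have hPV : (P : Subgroup V).map V.subtype = V := by
    rcases hmin _ hnor (Subgroup.map_subtype_le _) with h | h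
    · exact absurd ((Subgroup.map_eq_bot_iff_of_injective _ V.subtype_injective).1 h) hP0
    · exact h
  have hPtop : (P : Subgroup V) = ⊤ := by
    rw [eq_top_iff]
    intro x _
    have hx : (x : G) ∈ (P : Subgroup V).map V.subtype := by
      rw [hPV]
      exact x.2
    obtain ⟨z, hz, hzx⟩ := hx
    have : z = x := Subtype.ext hzx
    rwa [this] at hz
  have hpg : IsPGroup p V := by
    have h1 := P.isPGroup'
    rw [hPtop] at h1
    exact h1.of_equiv Subgroup.topEquiv
  haveI : Nontrivial (Subgroup.center V) := hpg.center_nontrivial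
  have hZ0 : Subgroup.center V ≠ ⊥ := (Subgroup.nontrivial_iff_ne_bot _).1 inferInstance
  have hZn : ((Subgroup.center V).map V.subtype).Normal := by
    haveI := hV
    infer_instance
  have hZV : (Subgroup.center V).map V.subtype = V := by
    rcases hmin _ hZn (Subgroup.map_subtype_le _) with h | h
    · exact absurd ((Subgroup.map_eq_bot_iff_of_injective _ V.subtype_injective).1 h) hZ0
    · exact h
  intro x hx y hy
  have h1 : x ∈ (Subgroup.center V).map V.subtype := by
    rw [hZV]
    exact hx
  obtain ⟨z, hz, rfl⟩ := h1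
  have h2 := Subgroup.mem_center_iff.1 hz ⟨y, hy⟩
  have h3 := congrArg (Subtype.val) h2
  simpa using h3.symm

theorem thm_Abl : St_Abl := by
  intro Q _ _ N M hN hM hMN hchief hgen x hx y hy
  haveI := hN
  haveI := hM
  have hsurj : Function.Surjective (QuotientGroup.mk' M) := QuotientGroup.mk'_surjective M
  have hker : (QuotientGroup.mk' M).ker = M := QuotientGroup.ker_mk' M
  have hVn : (N.map (QuotientGroup.mk' M)).Normal := hN.map _ hsurj
  have hcomapV : (N.map (QuotientGroup.mk' M)).comap (QuotientGroup.mk' M) = N := by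
    rw [Subgroup.comap_map_eq, hker, sup_eq_left.2 hMN]
  have hMle : ∀ L : Subgroup (Q ⧸ M), M ≤ L.comap (QuotientGroup.mk' M) := by
    intro L
    have h := Subgroup.ker_le_comap (f := QuotientGroup.mk' M) (H := L)
    rwa [hker] at h
  have key := Abl_core (N.map (QuotientGroup.mk' M)) hVn
    (by
      intro L hL hLV
      have h1 : L.comap (QuotientGroup.mk' M) ≤ N := by
        rw [← hcomapV]
        exact Subgroup.comap_mono hLV
      rcases hchief _ (hL.comap _) (hMle L) h1 with h | h
      · left
        rw [← Subgroup.map_comap_eq_self_of_surjective hsurj L, h,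
          Subgroup.map_eq_bot_iff, hker]
      · right
        rw [← Subgroup.map_comap_eq_self_of_surjective hsurj L, h])
    (by
      intro H hH
      have h1 : H.comap (QuotientGroup.mk' M) ⊔ N = ⊤ := by
        have h2 : (H.comap (QuotientGroup.mk' M) ⊔ N).map (QuotientGroup.mk' M) = ⊤ := by
          rw [Subgroup.map_sup, Subgroup.map_comap_eq_self_of_surjective hsurj, hH]
        have h3 := congrArg (Subgroup.comap (QuotientGroup.mk' M)) h2
        rw [Subgroup.comap_map_eq, hker, Subgroup.comap_top] at h3
        rwa [sup_eq_left.2 (hMN.trans le_sup_right)] at h3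
      have h4 := hgen _ h1
      rw [sup_eq_left.2 (hMle H)] at h4
      rw [← Subgroup.map_comap_eq_self_of_surjective hsurj H, h4,
        Subgroup.map_top_of_surjective _ hsurj])
  have h5 := key _ (Subgroup.mem_map_of_mem (QuotientGroup.mk' M) hx) _
    (Subgroup.mem_map_of_mem (QuotientGroup.mk' M) hy)
  have h6 : QuotientGroup.mk' M (x * y * x⁻¹ * y⁻¹) = 1 := by
    rw [map_mul, map_mul, map_mul, map_inv, map_inv, h5]
    group
  rwa [← MonoidHom.mem_ker, hker] at h6

end Pool.Agent.PWF
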