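import Pool.Agent.PWF.St

/-!
# Campaign PWF, module Cha: a chain of chief factors
-/

set_option autoImplicit false

namespace Pool.Agent.PWF

open Pool.Agent.PW Pool.Agent.PWM Pool.Agent.PWB Pool.Agent.PWX

theorem Cha_aux (hLvl : St_Lvl) (hAbl : St_Abl) {Q : Type} [Group Q] [Finite Q] {g n h d : ℕ}
    (hg : h + (4 * d + 2) ≤ g) (A₀ M : Subgroup Q) (hM : M.Normal)
    (hng : ∀ H : Subgroup Q, H ⊔ A₀ = ⊤ → H ⊔ M = ⊤) (c : ℕ) :
    ∀ A : Subgroup Q, Nat.card A ≤ c → A.Normal → M ≤ A → A ≤ A₀ → ∀ ρ : F g n →* Q,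
    Sta ρ h d A₀ A → ∃ φ ∈ MCG g n, Sta (ρ.comp (MulEquiv.toMonoidHom φ)) h d A₀ M := by
  induction c with
  | zero =>
    intro A hA
    have := Nat.card_pos (α := A)
    omega
  | succ c ih =>
    intro A hc hA hMA hAA ρ hρ
    by_cases hAM : A = M
    · exact ⟨1, one_mem _, by rw [← hAM]; exact hρ⟩
    have hne : ({B : Subgroup Q | B.Normal ∧ M ≤ B ∧ B < A} : Set (Subgroup Q)).Nonempty :=
      ⟨M, hM, le_refl M, lt_of_le_of_ne hMA fun h => hAM h.symm⟩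
    obtain ⟨B, hB⟩ := (Set.toFinite
      ({B : Subgroup Q | B.Normal ∧ M ≤ B ∧ B < A} : Set (Subgroup Q))).exists_maximal hne
    obtain ⟨hBn, hMB, hBA⟩ := hB.1
    have hmin : ∀ L : Subgroup Q, L.Normal → B ≤ L → L ≤ A → L = B ∨ L = A := by
      intro L hL hBL hLA
      by_cases hLA' : L = A
      · exact Or.inr hLA'
      · left
        have h1 : L ≤ B := hB.2 ⟨hL, hMB.trans hBL, lt_of_le_of_ne hLA hLA'⟩ hBL
        exact le_antisymm h1 hBL
    have hup : ∀ H : Subgroup Q, H ⊔ M = ⊤ → H ⊔ B = ⊤ := fun H hH =>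
      top_le_iff.1 (hH ▸ sup_le_sup_left hMB H)
    have hcom := hAbl A B hA hBn hBA.le hmin (fun H hH =>
      hup H (hng H (top_le_iff.1 (hH ▸ sup_le_sup_left hAA H))))
    obtain ⟨φ, hφ, h1⟩ := hLvl hg A₀ A B hA hBn hBA.le hAA hcom hmin
      (fun H hH => hup H (hng H hH)) ρ hρ
    have hcard : Nat.card B < Nat.card A := by
      have h2 : (B : Set Q) ⊂ (A : Set Q) := SetLike.coe_ssubset_coe.2 hBA
      exact Set.ncard_lt_ncard h2 (Set.toFinite _)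
    obtain ⟨ψ, hψ, h2⟩ := ih B (by omega) hBn hMB (hBA.le.trans hAA) _ h1
    exact ⟨φ * ψ, mul_mem hφ hψ, h2⟩

theorem thm_Cha (hLvl : St_Lvl) (hAbl : St_Abl) : St_Cha := by
  intro Q _ _ g n h d hg A₀ A M hA hM hMA hAA hng ρ hρ
  exact Cha_aux hLvl hAbl hg A₀ M hM hng (Nat.card A) A le_rfl hA hMA hAA ρ hρ

end Pool.Agent.PWF
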