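import Pool.Agent.PWF.St

/-!
# Campaign PWF, module Cnt: counting
-/

set_option autoImplicit false

namespace Pool.Agent.PWF

variable {Q : Type} [Group Q]

/-- Cauchy-Schwarz for the fibres. -/
theorem Cnt_cs {α β : Type} [Fintype α] [DecidableEq α] [DecidableEq β] (g : α → β) :
    Fintype.card α ^ 2 ≤ (Finset.univ.image g).card *
      (Finset.univ.filter fun p : α × α => g p.1 = g p.2).card := by
  have h1 : Fintype.card α = ∑ u ∈ Finset.univ.image g,
      (Finset.univ.filter fun v => g v = u).card := by
    rw [← Finset.card_univ]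
    exact Finset.card_eq_sum_card_fiberwise fun v _ => Finset.mem_coe.2
      (Finset.mem_image_of_mem g (Finset.mem_univ v))
  have h2 : (Finset.univ.filter fun p : α × α => g p.1 = g p.2).card =
      ∑ u ∈ Finset.univ.image g, (Finset.univ.filter fun v => g v = u).card ^ 2 := by
    rw [Finset.card_eq_sum_card_fiberwise (f := fun p : α × α => g p.1)
      (t := Finset.univ.image g) fun p _ => Finset.mem_coe.2
        (Finset.mem_image_of_mem g (Finset.mem_univ p.1))]
    refine Finset.sum_congr rfl fun u _ => ?_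
    rw [sq, ← Finset.card_product]
    congr 1
    ext p
    simp only [Finset.mem_filter, Finset.mem_univ, true_and, Finset.mem_product]
    constructor
    · rintro ⟨h3, h4⟩
      exact ⟨h4, h3 ▸ h4⟩
    · rintro ⟨h3, h4⟩
      exact ⟨h3.trans h4.symm, h3⟩
  rw [h1, h2]
  exact sq_sum_le_card_mul_sum_sq

theorem Cnt_hom (V : Subgroup Q) (hc : ∀ x y : V, x * y = y * x) :
    ∀ a ∈ Cg V, ∀ v w : V, a (v * w) = a v * a w := by
  intro a ha
  unfold Cg at ha
  induction ha using Subgroup.closure_induction with
  | mem a ha =>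
    obtain ⟨q, hq⟩ := ha
    intro v w
    apply Subtype.ext
    rw [Subgroup.coe_mul, hq, hq, hq, Subgroup.coe_mul]
    group
  | one =>
    intro v w
    change (1 : V) = 1 * 1
    rw [one_mul]
  | mul a b _ _ ha hb =>
    intro v w
    change a (v * w) * b (v * w) = (a v * b v) * (a w * b w)
    rw [ha, hb, mul_assoc, mul_assoc, ← mul_assoc (a w), hc (a w) (b v), mul_assoc]
  | inv a _ ha =>
    intro v w
    change (a (v * w))⁻¹ = (a v)⁻¹ * (a w)⁻¹
    rw [ha, mul_inv_rev, hc]

theorem Cnt_surj (V : Subgroup Q) (hV : Mn V) (w : V) (hw : w ≠ 1) (u : V) :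
    ∃ a ∈ Cg V, a w = u := by
  have hn := hV.nor
  have h1 : Subgroup.normalClosure {(w : Q)} = V := by
    rcases hV.min (Subgroup.normalClosure {(w : Q)}) Subgroup.normalClosure_normal
      (Subgroup.normalClosure_le_normal (by simp)) with h | h
    · exfalso
      apply hw
      apply Subtype.ext
      have h2 : (w : Q) ∈ Subgroup.normalClosure {(w : Q)} :=
        Subgroup.subset_normalClosure (by simp)
      rw [h] at h2
      exact Subgroup.mem_bot.1 h2
    · exact h
  have h2 : ∀ x ∈ Subgroup.normalClosure {(w : Q)}, ∃ a ∈ Cg V, ((a w : V) : Q) = x := by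
    intro x hx
    unfold Subgroup.normalClosure at hx
    induction hx using Subgroup.closure_induction with
    | mem x hx =>
      rw [Group.mem_conjugatesOfSet_iff] at hx
      obtain ⟨y, hy, hxy⟩ := hx
      rw [Set.mem_singleton_iff] at hy
      rw [isConj_iff] at hxy
      obtain ⟨q, hq⟩ := hxy
      refine ⟨fun v => ⟨q * v * q⁻¹, hn.conj_mem _ v.2 q⟩, Subgroup.subset_closure ⟨q, fun v => rfl⟩, ?_⟩
      rw [← hq, hy]
    | one => exact ⟨1, Subgroup.one_mem _, rfl⟩
    | mul x y _ _ hx hy =>
      obtain ⟨a, ha, ha'⟩ := hx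
      obtain ⟨b, hb, hb'⟩ := hy
      refine ⟨a * b, Subgroup.mul_mem _ ha hb, ?_⟩
      rw [Pi.mul_apply, Subgroup.coe_mul, ha', hb']
    | inv x _ hx =>
      obtain ⟨a, ha, ha'⟩ := hx
      refine ⟨a⁻¹, Subgroup.inv_mem _ ha, ?_⟩
      rw [Pi.inv_apply, Subgroup.coe_inv, ha']
  obtain ⟨a, ha, ha'⟩ := h2 u (by rw [h1]; exact u.2)
  exact ⟨a, ha, Subtype.ext ha'⟩

/-- the fibres of the evaluation -/
theorem Cnt_fib (V : Subgroup Q) [Fintype V] [DecidableEq V] [Fintype (Cg V)] (hV : Mn V) (w : V)
    (hw : w ≠ 1) (u : V) :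
    Fintype.card V * (Finset.univ.filter fun a : Cg V => (a : V → V) w = u).card =
      Fintype.card (Cg V) := by
  let φ : Cg V →* V := (Pi.evalMonoidHom (fun _ : V => V) w).comp (Cg V).subtype
  have hφ : ∀ a, φ a = (a : V → V) w := fun a => rfl
  have hs : ∀ u', u' ∈ Set.range φ := by
    intro u'
    obtain ⟨a, ha, ha'⟩ := Cnt_surj V hV w hw u'
    exact ⟨⟨a, ha⟩, ha'⟩
  have h1 : ∀ u', (Finset.univ.filter fun a : Cg V => (a : V → V) w = u').card =
      (Finset.univ.filter fun a : Cg V => (a : V → V) w = u).card := fun u' =>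
    MonoidHom.card_fiber_eq_of_mem_range φ (hs u') (hs u)
  have h2 : Fintype.card (Cg V) = ∑ u' : V,
      (Finset.univ.filter fun a : Cg V => (a : V → V) w = u').card := by
    rw [← Finset.card_univ]
    exact Finset.card_eq_sum_card_fiberwise fun a _ => Finset.mem_coe.2 (Finset.mem_univ _)
  rw [h2, Finset.sum_congr rfl fun u' _ => h1 u', Finset.sum_const, Finset.card_univ, smul_eq_mul]

theorem thm_Cnt : St_Cnt := by
  intro Q _ _ V hV f
  classical
  have hc : ∀ x y : V, x * y = y * x := fun x y => Subtype.ext (hV.com x x.2 y y.2)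
  have iV : Fintype V := Fintype.ofFinite V
  have iC : Fintype (Cg V) := Fintype.ofFinite _
  by_contra hcon
  have hcon' : ∀ a ∈ Cg V, 2 * (Finset.univ.image fun v => a v * f v).card ≤ Fintype.card V := by
    intro a ha
    by_contra h
    apply hcon
    refine ⟨a, ha, ?_⟩
    have h1 : (Set.range fun v => a v * f v) = ((Finset.univ.image fun v => a v * f v : Finset V) :
        Set V) := by
      rw [Finset.coe_image, Finset.coe_univ, Set.image_univ]
    rw [h1, Set.ncard_coe_finset, Nat.card_eq_fintype_card]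
    omega
  obtain ⟨n, hn⟩ : ∃ n, n = Fintype.card V := ⟨_, rfl⟩
  have hn0 : 0 < n := by rw [hn]; exact Fintype.card_pos
  -- pairs for one a
  have hP : ∀ a : Cg V, 2 * n ≤ (Finset.univ.filter fun p : V × V =>
      (a : V → V) p.1 * f p.1 = (a : V → V) p.2 * f p.2).card := by
    intro a
    have h1 := Cnt_cs fun v => (a : V → V) v * f v
    have h2 := hcon' a a.2
    rw [← hn] at h1 h2
    have h3 : n * (2 * n) ≤ n * (Finset.univ.filter fun p : V × V =>
        (a : V → V) p.1 * f p.1 = (a : V → V) p.2 * f p.2).card := by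
      calc n * (2 * n) = 2 * n ^ 2 := by ring
        _ ≤ 2 * ((Finset.univ.image fun v => (a : V → V) v * f v).card *
          (Finset.univ.filter fun p : V × V =>
            (a : V → V) p.1 * f p.1 = (a : V → V) p.2 * f p.2).card) :=
          Nat.mul_le_mul_left 2 h1
        _ = (2 * (Finset.univ.image fun v => (a : V → V) v * f v).card) *
          (Finset.univ.filter fun p : V × V =>
            (a : V → V) p.1 * f p.1 = (a : V → V) p.2 * f p.2).card := by ring
        _ ≤ _ := Nat.mul_le_mul_right _ h2
    exact Nat.le_of_mul_le_mul_left h3 hn0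
  -- double counting
  have hD : ∑ a : Cg V, (Finset.univ.filter fun p : V × V =>
      (a : V → V) p.1 * f p.1 = (a : V → V) p.2 * f p.2).card =
      ∑ p : V × V, (Finset.univ.filter fun a : Cg V =>
      (a : V → V) p.1 * f p.1 = (a : V → V) p.2 * f p.2).card := by
    simp only [Finset.card_filter]
    exact Finset.sum_comm
  have hF : ∀ p : V × V, n * (Finset.univ.filter fun a : Cg V =>
      (a : V → V) p.1 * f p.1 = (a : V → V) p.2 * f p.2).card =
      if p.1 = p.2 then n * Fintype.card (Cg V) else Fintype.card (Cg V) := by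
    rintro ⟨v, v'⟩
    by_cases h : v = v'
    · subst h
      simp
    · rw [if_neg h]
      have h1 : v'⁻¹ * v ≠ 1 := fun h2 => h (inv_mul_eq_one.1 h2).symm
      have h3 := Cnt_fib V hV (v'⁻¹ * v) h1 (f v' * (f v)⁻¹)
      rw [← hn] at h3
      rw [← h3]
      congr 2
      ext a
      simp only [Finset.mem_filter, Finset.mem_univ, true_and]
      have h4 := Cnt_hom V hc a a.2 v' (v'⁻¹ * v)
      rw [mul_inv_cancel_left] at h4
      constructor
      · intro h5
        have h6 : (a : V → V) v' * (a : V → V) (v'⁻¹ * v) * f v = (a : V → V) v' * f v' := by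
          rw [← h4]
          exact h5
        rw [mul_assoc] at h6
        have h7 := mul_left_cancel h6
        rw [← h7, mul_inv_cancel_right]
      · intro h5
        rw [h4, h5, mul_assoc, inv_mul_cancel_right]
  have hS : n * ∑ a : Cg V, (Finset.univ.filter fun p : V × V =>
      (a : V → V) p.1 * f p.1 = (a : V → V) p.2 * f p.2).card + n * Fintype.card (Cg V) =
      2 * (n * n * Fintype.card (Cg V)) := by
    rw [hD, Finset.mul_sum, Finset.sum_congr rfl fun p _ => hF p, Fintype.sum_prod_type]
    have h1 : ∀ v : V, (∑ v' : V, if v = v' then n * Fintype.card (Cg V) else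
        Fintype.card (Cg V)) + Fintype.card (Cg V) = 2 * (n * Fintype.card (Cg V)) := by
      intro v
      have h2 : ∀ v' : V, (if v = v' then n * Fintype.card (Cg V) else Fintype.card (Cg V)) +
          (if v = v' then Fintype.card (Cg V) else 0) =
          (if v = v' then n * Fintype.card (Cg V) else 0) + Fintype.card (Cg V) := by
        intro v'
        by_cases h : v = v'
        · simp [h]
        · simp [h]
      have h3 : ∑ v' : V, ((if v = v' then n * Fintype.card (Cg V) else Fintype.card (Cg V)) +
          (if v = v' then Fintype.card (Cg V) else 0)) = ∑ v' : V,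
          ((if v = v' then n * Fintype.card (Cg V) else 0) + Fintype.card (Cg V)) :=
        Finset.sum_congr rfl fun v' _ => h2 v'
      rw [Finset.sum_add_distrib, Finset.sum_add_distrib, Finset.sum_ite_eq, Finset.sum_ite_eq,
        if_pos (Finset.mem_univ _), if_pos (Finset.mem_univ _), Finset.sum_const,
        Finset.card_univ, ← hn, smul_eq_mul] at h3
      rw [h3]
      ring
    have h4 : (∑ v : V, ∑ v' : V, if v = v' then n * Fintype.card (Cg V) else
        Fintype.card (Cg V)) + n * Fintype.card (Cg V) =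
        ∑ v : V, ((∑ v' : V, if v = v' then n * Fintype.card (Cg V) else
        Fintype.card (Cg V)) + Fintype.card (Cg V)) := by
      rw [Finset.sum_add_distrib, Finset.sum_const, Finset.card_univ, ← hn, smul_eq_mul]
    rw [h4, Finset.sum_congr rfl fun v _ => h1 v, Finset.sum_const, Finset.card_univ, ← hn,
      smul_eq_mul]
    ring
  have hT : n * (2 * n * Fintype.card (Cg V)) ≤ n * ∑ a : Cg V, (Finset.univ.filter
      fun p : V × V => (a : V → V) p.1 * f p.1 = (a : V → V) p.2 * f p.2).card := by
    refine Nat.mul_le_mul_left n ?_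
    have h1 : ∑ _a : Cg V, 2 * n ≤ ∑ a : Cg V, (Finset.univ.filter
      fun p : V × V => (a : V → V) p.1 * f p.1 = (a : V → V) p.2 * f p.2).card :=
      Finset.sum_le_sum fun a _ => hP a
    rw [Finset.sum_const, Finset.card_univ, smul_eq_mul] at h1
    calc 2 * n * Fintype.card (Cg V) = Fintype.card (Cg V) * (2 * n) := by ring
      _ ≤ _ := h1
  have hC0 : 0 < Fintype.card (Cg V) := Fintype.card_pos
  have hpos : 0 < n * Fintype.card (Cg V) := Nat.mul_pos hn0 hC0
  have e1 : n * (2 * n * Fintype.card (Cg V)) = 2 * (n * n * Fintype.card (Cg V)) := by ring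
  omega

end Pool.Agent.PWF
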