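import Pool.Agent.PWF.Cost

/-!
# Campaign PWF: the final form of the cost
-/

set_option autoImplicit false

namespace Pool.Agent.PWF

open Pool.Agent.PW Pool.Agent.PWM Pool.Agent.PWB Pool.Agent.PWX Pool.Agent.PWS

/-- The subgroup `N` of `G` can be reached from `⊤` with cost `s`.  Steps from `N` to a smaller
subgroup `M`:
* `M` has index `r + 1` in `N`: cost `r`;
* `N/M` is cyclic: cost 1;
* `N/M` is an abelian chief factor of `G`: cost 1;
* `N`, `M` normal, `N/M` central in `G/M` and made of non-generators of `G/M`: no cost;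
* `N`, `M` normal, `N/M` made of non-generators of `G/M`, `G/N` generated by `d` elements: cost
  `4 d + 2`;
* `N`, `M` normal, `N/M` nilpotent and generated by `r` elements, `G/N` generated by `d` elements:
  cost `4 d + 5 r + 2`;
* `M` contains the kernel of a homomorphism from `N` to a section `S/T` of `SL_2(F_p)` for some prime
  `p`: cost `C`. -/
inductive Cost5 (C : ℕ) (G : Type) [Group G] : ℕ → Subgroup G → Prop
  | top : Cost5 C G 0 ⊤
  | index {s r : ℕ} {N M : Subgroup G} : Cost5 C G s N → M ≤ N → M.relIndex N = r + 1 →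
      Cost5 C G (s + r) M
  | cyclic {s : ℕ} {N M : Subgroup G} : Cost5 C G s N → M ≤ N →
      (∀ x ∈ N, ∀ y ∈ M, x * y * x⁻¹ ∈ M) → (∃ c ∈ N, ∀ x ∈ N, ∃ k : ℤ, (c ^ k)⁻¹ * x ∈ M) →
      Cost5 C G (s + 1) M
  | chief {s : ℕ} {N M : Subgroup G} : Cost5 C G s N → N.Normal → M.Normal → M ≤ N →
      (∀ x ∈ N, ∀ y ∈ N, x * y * x⁻¹ * y⁻¹ ∈ M) →
      (∀ L : Subgroup G, L.Normal → M ≤ L → L ≤ N → L = M ∨ L = N) → Cost5 C G (s + 1) M
  | frattini {s : ℕ} {N M : Subgroup G} : Cost5 C G s N → N.Normal → M.Normal → M ≤ N →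
      (∀ x ∈ N, ∀ y, x * y * x⁻¹ * y⁻¹ ∈ M) → (∀ H : Subgroup G, H ⊔ N = ⊤ → H ⊔ M = ⊤) →
      Cost5 C G s M
  | nongen {s d : ℕ} {N M : Subgroup G} : Cost5 C G s N → N.Normal → M.Normal → M ≤ N →
      (∀ H : Subgroup G, H ⊔ N = ⊤ → H ⊔ M = ⊤) →
      (∃ S : Finset G, S.card ≤ d ∧ Subgroup.closure (S : Set G) ⊔ N = ⊤) →
      Cost5 C G (s + (4 * d + 2)) M
  | nilpotent {s d r : ℕ} {N M : Subgroup G} [N.Normal] [M.Normal] : Cost5 C G s N → M ≤ N →
      Group.IsNilpotent (N ⧸ M.subgroupOf N) →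
      (∃ S : Finset G, S.card ≤ r ∧ Subgroup.closure (S : Set G) ⊔ M = N) →
      (∃ S : Finset G, S.card ≤ d ∧ Subgroup.closure (S : Set G) ⊔ N = ⊤) →
      Cost5 C G (s + (4 * d + 5 * r + 2)) M
  | sl2 {s : ℕ} {N M : Subgroup G} (p : ℕ) [Fact p.Prime]
      (S : Subgroup (Matrix.SpecialLinearGroup (Fin 2) (ZMod p))) (T : Subgroup S) [T.Normal]
      (σ : N →* S ⧸ T) : Cost5 C G s N → M ≤ N → (∀ x : N, σ x = 1 → (x : G) ∈ M) →
      Cost5 C G (s + C) M

/-- The nilpotent steps are composed of other steps. -/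
theorem cost4_of_cost5 (hNls : St_Nls) {C : ℕ} {G : Type} [Group G] [Finite G] {s : ℕ}
    {N : Subgroup G} (h : Cost5 C G s N) : Cost4 C G s N := by
  induction h with
  | top => exact Cost4.top
  | index _ h1 h2 ih => exact Cost4.index ih h1 h2
  | cyclic _ h1 h2 h3 ih => exact Cost4.cyclic ih h1 h2 h3
  | chief _ h1 h2 h3 h4 h5 ih => exact Cost4.chief ih h1 h2 h3 h4 h5
  | frattini _ h1 h2 h3 h4 h5 ih => exact Cost4.frattini ih h1 h2 h3 h4 h5
  | nongen _ h1 h2 h3 h4 h5 ih => exact Cost4.nongen ih h1 h2 h3 h4 h5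
  | @nilpotent s d r N M _ _ _ h1 h2 h3 h4 ih =>
    have h5 := hNls C s d r N M ih h1 h2 h3 h4
    have e : s + (4 * d + 5 * r + 2) = s + r + (4 * (d + r) + 2) := by ring
    rw [e]
    exact h5
  | sl2 p S T σ _ h1 h2 ih => exact Cost4.sl2 p S T σ ih h1 h2

/-- The old cost. -/
theorem cost5_of_cost2 (C : ℕ) {G : Type} [Group G] {s : ℕ} {N : Subgroup G} (h : Cost2 G s N) :
    Cost5 C G s N := by
  induction h with
  | top => exact Cost5.top
  | cyclic _ h1 h2 h3 ih => exact Cost5.cyclic ih h1 h2 h3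
  | chief _ h1 h2 h3 h4 h5 ih => exact Cost5.chief ih h1 h2 h3 h4 h5
  | frattini _ h1 h2 h3 h4 h5 ih => exact Cost5.frattini ih h1 h2 h3 h4 h5
  | index _ h1 h2 ih => exact Cost5.index ih h1 h2

end Pool.Agent.PWF
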