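import Pool.Agent.PWF.St

/-!
# Campaign PWF, module Hlf (helper26): more than half of `V` is reached
-/

set_option autoImplicit false

namespace Pool.Agent.PWF

open Pool.Agent.PW Pool.Agent.PWM Pool.Agent.PWB Pool.Agent.PWX

/-- Congruence modulo a normal subgroup and the quotient. -/
private theorem Hlf_mem {Q : Type} [Group Q] {V : Subgroup Q} [V.Normal] {x y : Q} :
    x⁻¹ * y ∈ V ↔ QuotientGroup.mk' V x = QuotientGroup.mk' V y := by
  rw [QuotientGroup.mk'_apply, QuotientGroup.mk'_apply, QuotientGroup.eq]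

theorem thm_Hlf (hEqb : St_Eqb) (hPsb : St_Psb) (hOne : St_One) (hTwo : St_Two) (hCnt : St_Cnt) :
    St_Hlf := by
  rintro Q _ _ V hV x hx hx1 R₂ R₁ ⟨α, β⟩ hR₂ hR₁
  have hn : V.Normal := hV.nor
  obtain ⟨e1, -, -, -, -, -⟩ := hEqb V hV.nor
  obtain ⟨s1, s2, s3, s4, s5⟩ := hPsb V hV.nor
  obtain ⟨D, hD⟩ : ∃ D, D = Dp R₂ := ⟨_, rfl⟩
  have hx2 : D⁻¹ * x * D ∈ V := by
    have := hn.conj_mem x hx D⁻¹
    rwa [inv_inv] at this
  have hx21 : D⁻¹ * x * D ≠ 1 := by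
    intro h
    apply hx1
    calc x = D * (D⁻¹ * x * D) * D⁻¹ := by group
      _ = 1 := by
        rw [h]
        group
  have h1 : ∀ v : V, _ := fun v => hOne V hV _ hx2 hx21 R₁ hR₁ v v.2 α β R₁ (e1 R₁)
  choose δ hδ α' R' hα' hR' hp using h1
  have hf : ∀ v, D * δ v * D⁻¹ ∈ V := fun v => hn.conj_mem _ (hδ v) D
  obtain ⟨a, ha, hcard⟩ := hCnt V hV fun v => ⟨D * δ v * D⁻¹, hf v⟩
  obtain ⟨δ₂, hδ₂, β'', R₂', hβ'', hR₂', h2⟩ := hTwo V hV x hx R₂ hR₂ a ha β R₂ (e1 R₂)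
  refine ⟨(fun w : V => δ₂ * (w : Q)) '' Set.range (fun v : V => a v * ⟨D * δ v * D⁻¹, hf v⟩),
    ?_, ?_, ?_⟩
  · rintro _ ⟨w, -, rfl⟩
    exact V.mul_mem hδ₂ w.2
  · rwa [Set.ncard_image_of_injective _ (fun w w' h => Subtype.ext (mul_left_cancel h))]
  · rintro _ ⟨_, ⟨v, rfl⟩, rfl⟩
    obtain ⟨α'', hα'', p2⟩ := h2 v (α' v)
    refine ⟨R₂' ++ (α'', β'' * (v : Q)) :: R' v, ?_, ?_⟩
    · refine List.rel_append hR₂' (List.Forall₂.cons ⟨?_, ?_⟩ (hR' v))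
      · show α⁻¹ * α'' ∈ V
        have h3 := hα' v
        rw [Hlf_mem] at h3 hα'' ⊢
        rw [h3, hα'']
      · show β⁻¹ * (β'' * (v : Q)) ∈ V
        rw [← mul_assoc]
        exact V.mul_mem hβ'' v.2
    · have p1 : Ps V x 1 (R₂ ++ (α, β) :: R₁) (D * δ v * D⁻¹)
          (R₂ ++ (α' v, β * (v : Q)) :: R' v) := by
        refine s5 x 1 (D * δ v * D⁻¹) R₂ _ _ ?_
        rw [← hD]
        have e2 : D⁻¹ * 1 * D = 1 := by group
        have e3 : D⁻¹ * (D * δ v * D⁻¹) * D = δ v := by group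
        rw [e2, e3]
        exact hp v
      have p3 := s3 _ _ _ _ _ _ (hf v) (s4 _ _ _ _ _ (R' v) p2)
      rw [one_mul, List.append_assoc, List.append_assoc, List.singleton_append,
        List.singleton_append] at p3
      have p4 := s2 _ _ _ _ _ _ _ p1 p3
      have e4 : δ₂ * (a v : Q) * (D * δ v * D⁻¹) =
          δ₂ * ((a v * (⟨D * δ v * D⁻¹, hf v⟩ : V) : V) : Q) := by
        show δ₂ * (a v : Q) * (D * δ v * D⁻¹) = δ₂ * ((a v : Q) * (D * δ v * D⁻¹))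
        rw [mul_assoc]
      rw [e4] at p4
      exact p4

end Pool.Agent.PWF
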