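import Pool.Agent.PWF.St

/-!
# Campaign PWF: all the handles of a list with values in `V` are killed
-/

set_option autoImplicit false

namespace Pool.Agent.PWF

open Pool.Agent.PW Pool.Agent.PWM Pool.Agent.PWB Pool.Agent.PWX

theorem Its_split {α β : Type} {R : α → β → Prop} (a b : List α) (l : List β)
    (h : List.Forall₂ R (a ++ b) l) :
    ∃ a' b', l = a' ++ b' ∧ List.Forall₂ R a a' ∧ List.Forall₂ R b b' := by
  induction a generalizing l with
  | nil => exact ⟨[], l, rfl, List.Forall₂.nil, h⟩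
  | cons x a ih =>
    cases h with
    | cons h1 h2 =>
      rename_i y l'
      obtain ⟨a', b', e, h3, h4⟩ := ih l' h2
      exact ⟨y :: a', b', by rw [e]; rfl, List.Forall₂.cons h1 h3, h4⟩

theorem Its_str (hEqb : St_Eqb) {Q : Type} [Group Q] {V : Subgroup Q} (hV : V.Normal) {d : ℕ}
    {L L' : List (Q × Q)} (h : Eqv V L L') (hL : Str V d L) : Str V d L' := by
  obtain ⟨R₁, R₂, R₃, R₄, J, J', e, l1, l2, l3, l4, g1, g2, g3, g4⟩ := hL
  obtain ⟨-, -, -, -, hgn, -⟩ := hEqb V hV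
  rw [e] at h
  obtain ⟨a, b, e1, ha, hb⟩ := Its_split _ _ _ h
  obtain ⟨S₁, a', e2, h1, ha'⟩ := Its_split _ _ _ ha
  obtain ⟨S₃, b', e3, h3, hb'⟩ := Its_split _ _ _ hb
  cases ha' with
  | cons hJ h2 =>
    cases hb' with
    | cons hJ' h4 =>
      rename_i K S₂ K' S₄
      refine ⟨S₁, S₂, S₃, S₄, K, K', by rw [e1, e2, e3], ?_, ?_, ?_, ?_, ?_, ?_, ?_, ?_⟩
      · rw [← h1.length_eq, l1]
      · rw [← h2.length_eq, l2]
      · rw [← h3.length_eq, l3]
      · rw [← h4.length_eq, l4]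
      · exact hgn V R₁ S₁ le_rfl h1 g1
      · exact hgn V R₂ S₂ le_rfl h2 g2
      · exact hgn V R₃ S₃ le_rfl h3 g3
      · exact hgn V R₄ S₄ le_rfl h4 g4

theorem Its_move (hBas : St_Bas) {Q : Type} [Group Q] (l : List (Q × Q)) :
    LG (l ++ [((1 : Q), (1 : Q))]) ((1, 1) :: l) := by
  obtain ⟨hrefl, htrans, -, happ, hswap, -, -⟩ := hBas
  induction l with
  | nil => exact hrefl _
  | cons p l ih =>
    have h1 := happ [p] _ _ [] ih
    have h2 := happ [] _ _ l (hswap p ((1 : Q), (1 : Q)))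
    have h3 : cj (dd ((1 : Q), (1 : Q)))⁻¹ p = p := by
      simp [cj, dd]
    rw [h3] at h2
    refine htrans _ _ _ ?_ (by simpa using h2)
    simpa using h1

theorem thm_Its (hBas : St_Bas) (hEqb : St_Eqb) (hKil : St_Kil) : St_Its := by
  intro Q _ _ V hV hH d Ts
  induction Ts using List.reverseRecOn with
  | nil =>
    intro L _ _
    refine ⟨L, (hEqb V hV.nor).1 L, ?_⟩
    simpa using hBas.1 L
  | append_singleton Ts T ih =>
    intro L hTs hL
    have hT : In V T := hTs T (by simp)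
    obtain ⟨L1, hL1, hg1⟩ := hKil V hV hH d L hL T.1 hT.1 T.2 hT.2
    obtain ⟨L2, hL2, hg2⟩ := ih L1 (fun p hp => hTs p (by simp [hp]))
      (Its_str hEqb hV.nor hL1 hL)
    refine ⟨L2, (hEqb V hV.nor).2.2.1 L L1 L2 hL1 hL2, ?_⟩
    obtain ⟨hrefl, htrans, -, happ, hswap, -, -⟩ := id hBas
    have e1 := happ Ts _ _ [] hg1
    have e2 := happ [] _ _ L1 (Its_move hBas Ts)
    have e3 := happ [((1 : Q), (1 : Q))] _ _ [] hg2
    have f1 : LG (Ts ++ [T] ++ L) (Ts ++ ((1 : Q), (1 : Q)) :: L1) := by simpa using e1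
    have f2 : LG (Ts ++ ((1 : Q), (1 : Q)) :: L1) ((1, 1) :: (Ts ++ L1)) := by simpa using e2
    have f3 : LG ((((1 : Q), (1 : Q))) :: (Ts ++ L1))
        (List.replicate (Ts ++ [T]).length (1, 1) ++ L2) := by
      have e4 : List.replicate (Ts ++ [T]).length ((1 : Q), (1 : Q)) ++ L2 =
          (1, 1) :: (List.replicate Ts.length (1, 1) ++ L2) := by
        rw [List.length_append, List.length_singleton, List.replicate_succ]
        rfl
      rw [e4]
      simpa using e3
    exact htrans _ _ _ f1 (htrans _ _ _ f2 f3)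

end Pool.Agent.PWF
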