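import Pool.Agent.PWF.St
import Mathlib.Data.Set.Card

/-!
# Campaign PWF, module Kil: one handle is killed
-/

set_option autoImplicit false

namespace Pool.Agent.PWF

open Pool.Agent.PW Pool.Agent.PWM Pool.Agent.PWB Pool.Agent.PWX

section

variable {Q : Type} [Group Q]

theorem Kil_split {V : Subgroup Q} {A B L : List (Q × Q)} (h : Eqv V (A ++ B) L) :
    ∃ A' B', L = A' ++ B' ∧ Eqv V A A' ∧ Eqv V B B' := by
  induction A generalizing L with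
  | nil => exact ⟨[], L, rfl, List.Forall₂.nil, h⟩
  | cons a A ih =>
    change List.Forall₂ (Eqp V) (a :: (A ++ B)) L at h
    cases h with
    | cons h1 h2 =>
      obtain ⟨A', B', rfl, h3, h4⟩ := ih h2
      exact ⟨_ :: A', B', rfl, List.Forall₂.cons h1 h3, h4⟩

theorem Kil_app {V : Subgroup Q} {A B A' B' : List (Q × Q)} (h1 : Eqv V A A')
    (h2 : Eqv V B B') : Eqv V (A ++ B) (A' ++ B') := by
  unfold Eqv at h1
  induction h1 with
  | nil => exact h2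
  | cons h3 _ ih => exact List.Forall₂.cons h3 ih

theorem Kil_one (hBas : St_Bas) (hFre : St_Fre) [Finite Q] (R M : List (Q × Q)) (hR : Gn R = ⊤)
    (b b' : Q) : LG ((1, b) :: (R ++ M)) ((1, b') :: (R ++ M)) := by
  have h := hBas.2.2.2.1 [] _ _ M (hFre R hR b b')
  simpa using h

/-- Pigeonhole. -/
theorem Kil_pig [Finite Q] (V : Subgroup Q) {A B : Set Q} (hA : A ⊆ V) (hB : B ⊆ V)
    (hA2 : Nat.card V < 2 * A.ncard) (hB2 : Nat.card V < 2 * B.ncard) : ∃ z, z ∈ A ∧ z ∈ B := by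
  by_contra hno
  have hd : Disjoint A B := by
    rw [Set.disjoint_left]
    intro z h1 h2
    exact hno ⟨z, h1, h2⟩
  have h1 := Set.ncard_union_eq hd
  have h2 : (A ∪ B).ncard ≤ (V : Set Q).ncard := Set.ncard_le_ncard (Set.union_subset hA hB)
  have h3 : (V : Set Q).ncard = Nat.card V := (Nat.card_coe_set_eq (V : Set Q)).symm
  omega

end

/-- (Kil) One handle is killed. -/
theorem thm_Kil (hBas : St_Bas) (hEqb : St_Eqb) (hPsb : St_Psb) (hFre : St_Fre)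
    (hHlf : St_Hlf) : St_Kil := by
  intro Q _ _ V hV hfr d L hL x hx y hy
  obtain ⟨hE1, hE2, hE3, hE4, hE5, hE6⟩ := hEqb V hV.nor
  obtain ⟨hP1, hP2, hP3, hP4, hP5⟩ := hPsb V hV.nor
  obtain ⟨R₁, R₂, R₃, R₄, J, J', rfl, -, -, -, -, hR₁, hR₂, hR₃, hR₄⟩ := hL
  have hfirst : ∀ L' : List (Q × Q), Eqv V ((R₁ ++ J :: R₂) ++ (R₃ ++ J' :: R₄)) L' → ∀ b : Q,
      LG ((1, b) :: L') ((1, 1) :: L') := by
    intro L' hL' b
    rw [List.append_assoc] at hL'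
    obtain ⟨A, B, rfl, hA, -⟩ := Kil_split hL'
    exact Kil_one hBas hFre A B (hfr _ (hE5 V _ _ le_rfl hA hR₁)) b 1
  by_cases hx1 : x = 1
  · subst hx1
    exact ⟨_, hE1 _, hfirst _ (hE1 _) y⟩
  set LA := R₁ ++ J :: R₂ with hLA
  set LB := R₃ ++ J' :: R₄ with hLB
  obtain ⟨SA, hSA, hSA2, hSA3⟩ := hHlf V hV x hx hx1 R₁ R₂ J (hfr _ hR₁) (hfr _ hR₂)
  obtain ⟨D, hD⟩ : ∃ D, D = Dp LA := ⟨_, rfl⟩
  have hx' : D⁻¹ * x * D ∈ V := by
    have h := hV.nor.conj_mem x hx D⁻¹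
    rwa [inv_inv] at h
  have hx1' : D⁻¹ * x * D ≠ 1 := by
    intro h
    apply hx1
    have h2 : x = D * (D⁻¹ * x * D) * D⁻¹ := by group
    rw [h2, h]
    group
  obtain ⟨SB, hSB, hSB2, hSB3⟩ := hHlf V hV _ hx' hx1' R₃ R₄ J' (hfr _ hR₃) (hfr _ hR₄)
  rw [← hLA] at hSA3
  rw [← hLB] at hSB3
  obtain ⟨z, ⟨s, hs, hz1⟩, s', hs', hz2⟩ := Kil_pig V (A := (fun s => s * y) '' SA)
    (B := (fun s => (D * s * D⁻¹)⁻¹) '' SB)
    (by
      rintro _ ⟨s, hs, rfl⟩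
      exact V.mul_mem (hSA hs) hy)
    (by
      rintro _ ⟨s, hs, rfl⟩
      exact V.inv_mem (hV.nor.conj_mem s (hSB hs) D))
    (by
      rw [Set.ncard_image_of_injective _ (mul_left_injective y)]
      exact hSA2)
    (by
      rw [Set.ncard_image_of_injective]
      · exact hSB2
      · intro a b hab
        have h1 := inv_injective hab
        exact mul_left_cancel (mul_right_cancel h1))
  have hkey : D * s' * D⁻¹ * s * y = 1 := by
    have h1 : s * y = (D * s' * D⁻¹)⁻¹ := hz1.trans hz2.symm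
    rw [mul_assoc, h1, mul_inv_cancel]
  obtain ⟨LA', hLA', hPA⟩ := hSA3 s hs
  obtain ⟨LB', hLB', hPB⟩ := hSB3 s' hs'
  obtain ⟨D', hD'⟩ : ∃ D', D' = Dp LA' := ⟨_, rfl⟩
  have hDD := (hE4 _ _ hLA').2
  rw [← hD, ← hD'] at hDD
  have e1 := (hE6 hV.com D D' x hDD hx).1
  have e2 := (hE6 hV.com D D' s' hDD (hSB hs')).2
  have hp1 : Ps V x 1 (LA ++ LB) s (LA' ++ LB) := hP4 _ _ _ _ _ _ hPA
  have hp2 : Ps V x 1 (LA' ++ LB) (D * s' * D⁻¹) (LA' ++ LB') := by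
    apply hP5
    rw [← hD', ← e1, e2]
    have h3 : D'⁻¹ * 1 * D' = 1 := by group
    have h4 : D'⁻¹ * (D' * s' * D'⁻¹) * D' = s' := by group
    rw [h3, h4]
    exact hPB
  have hp3 := hP3 _ _ _ s _ _ (hSA hs) hp2
  rw [one_mul] at hp3
  have hp4 := hP2 _ _ _ _ _ _ _ hp1 hp3
  have hg := hp4 y hy
  rw [one_mul, hkey] at hg
  have hEq : Eqv V (LA ++ LB) (LA' ++ LB') := Kil_app hLA' hLB'
  refine ⟨_, hEq, ?_⟩
  have hr := hBas.2.2.2.1 [] _ _ (LA' ++ LB') (hBas.2.2.2.2.2.1 (x, 1))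
  have hr2 : LG ((x, 1) :: (LA' ++ LB')) ((1, x) :: (LA' ++ LB')) := by
    have e : rt ((x, 1) : Q × Q) = (1, x) := by
      simp [rt]
    rw [e] at hr
    simpa using hr
  exact hBas.2.1 _ _ _ hg (hBas.2.1 _ _ _ hr2 (hfirst _ hEq x))

end Pool.Agent.PWF
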