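import Pool.Agent.PWF.St

/-!
# Campaign PWF, module Lvl: one chief factor
-/

set_option autoImplicit false

namespace Pool.Agent.PWF

open Pool.Agent.PW Pool.Agent.PWM Pool.Agent.PWB Pool.Agent.PWX

section

variable {Q : Type} [Group Q]

/-! ### Lists -/

private theorem Lvl_split {V : Subgroup Q} {A B C : List (Q × Q)} (h : Eqv V (A ++ B) C) :
    ∃ A' B', C = A' ++ B' ∧ Eqv V A A' ∧ Eqv V B B' := by
  induction A generalizing C with
  | nil => exact ⟨[], C, rfl, List.Forall₂.nil, h⟩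
  | cons p A ih =>
    cases h with
    | @cons _ q _ C' h1 h2 =>
      obtain ⟨A', B', h3, h4, h5⟩ := ih h2
      exact ⟨q :: A', B', by rw [h3]; rfl, List.Forall₂.cons h1 h4, h5⟩

private theorem Lvl_cons {V : Subgroup Q} {p : Q × Q} {A C : List (Q × Q)}
    (h : Eqv V (p :: A) C) : ∃ p' A', C = p' :: A' ∧ Eqv V A A' := by
  cases h with
  | @cons _ q _ C' h1 h2 => exact ⟨q, C', rfl, h2⟩

private theorem Lvl_len {V : Subgroup Q} {A C : List (Q × Q)} (h : Eqv V A C) :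
    A.length = C.length := List.Forall₂.length_eq h

private theorem Lvl_str (hEqb : St_Eqb) {A₀ A : Subgroup Q} (hA : A.Normal) (hAA : A ≤ A₀)
    {d : ℕ} {L L' : List (Q × Q)} (h : Str A₀ d L) (hL : Eqv A L L') : Str A₀ d L' := by
  obtain ⟨R₁, R₂, R₃, R₄, J, J', rfl, h1, h2, h3, h4, g1, g2, g3, g4⟩ := h
  obtain ⟨P, P', rfl, hP, hP'⟩ := Lvl_split hL
  obtain ⟨S₁, T, rfl, k1, hT⟩ := Lvl_split hP
  obtain ⟨I, S₂, rfl, k2⟩ := Lvl_cons hT
  obtain ⟨S₃, T', rfl, k3, hT'⟩ := Lvl_split hP'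
  obtain ⟨I', S₄, rfl, k4⟩ := Lvl_cons hT'
  have hG := (hEqb A hA).2.2.2.2.1 A₀
  exact ⟨S₁, S₂, S₃, S₄, I, I', rfl, (Lvl_len k1).symm.trans h1, (Lvl_len k2).symm.trans h2,
    (Lvl_len k3).symm.trans h3, (Lvl_len k4).symm.trans h4, hG _ _ hAA k1 g1, hG _ _ hAA k2 g2,
    hG _ _ hAA k3 g3, hG _ _ hAA k4 g4⟩

/-! ### The quotient -/

/-- the image of a pair -/
private def Lvl_m (M : Subgroup Q) [M.Normal] (p : Q × Q) : (Q ⧸ M) × (Q ⧸ M) :=
  (QuotientGroup.mk' M p.1, QuotientGroup.mk' M p.2)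

private theorem Lvl_Gn (M : Subgroup Q) [M.Normal] (L : List (Q × Q)) :
    Gn (L.map (Lvl_m M)) = (Gn L).map (QuotientGroup.mk' M) := by
  unfold Gn
  rw [MonoidHom.map_closure]
  congr 1
  ext x
  simp only [Set.mem_ofPred_eq, List.mem_map, Set.mem_image]
  constructor
  · rintro ⟨p, ⟨q, hq, rfl⟩, h | h⟩
    · exact ⟨q.1, ⟨q, hq, Or.inl rfl⟩, h.symm⟩
    · exact ⟨q.2, ⟨q, hq, Or.inr rfl⟩, h.symm⟩
  · rintro ⟨y, ⟨p, hp, h | h⟩, rfl⟩
    · exact ⟨Lvl_m M p, ⟨p, hp, rfl⟩, Or.inl (by rw [h]; rfl)⟩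
    · exact ⟨Lvl_m M p, ⟨p, hp, rfl⟩, Or.inr (by rw [h]; rfl)⟩

private theorem Lvl_top (M : Subgroup Q) [M.Normal] {H : Subgroup Q} (h : H ⊔ M = ⊤) :
    H.map (QuotientGroup.mk' M) = ⊤ := by
  have h1 : (H ⊔ M).map (QuotientGroup.mk' M) = ⊤ := by
    rw [h]
    exact Subgroup.map_top_of_surjective _ (QuotientGroup.mk'_surjective M)
  rw [Subgroup.map_sup] at h1
  have h2 : M.map (QuotientGroup.mk' M) = ⊥ := by
    rw [Subgroup.map_eq_bot_iff, QuotientGroup.ker_mk']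
  rwa [h2, sup_bot_eq] at h1

private theorem Lvl_mem {M A : Subgroup Q} [M.Normal] (hMA : M ≤ A) {x : Q}
    (h : QuotientGroup.mk' M x ∈ A.map (QuotientGroup.mk' M)) : x ∈ A := by
  obtain ⟨a, ha, h1⟩ := h
  have h2 : a⁻¹ * x ∈ M := by
    have h3 : (a : Q ⧸ M) = x := h1
    exact QuotientGroup.eq.1 h3
  have h4 : x = a * (a⁻¹ * x) := by group
  rw [h4]
  exact A.mul_mem ha (hMA h2)

private theorem Lvl_comap {M A : Subgroup Q} [M.Normal] (hMA : M ≤ A) :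
    (A.map (QuotientGroup.mk' M)).comap (QuotientGroup.mk' M) = A := by
  apply le_antisymm
  · intro x hx
    exact Lvl_mem hMA hx
  · exact Subgroup.le_comap_map _ _

private theorem Lvl_map_comap (M : Subgroup Q) [M.Normal] (H : Subgroup (Q ⧸ M)) :
    (H.comap (QuotientGroup.mk' M)).map (QuotientGroup.mk' M) = H :=
  Subgroup.map_comap_eq_self_of_surjective (QuotientGroup.mk'_surjective M) H

private theorem Lvl_le_comap (M : Subgroup Q) [M.Normal] (H : Subgroup (Q ⧸ M)) :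
    M ≤ H.comap (QuotientGroup.mk' M) := by
  intro x hx
  have h1 : QuotientGroup.mk' M x = 1 := (QuotientGroup.eq_one_iff x).2 hx
  rw [Subgroup.mem_comap, h1]
  exact H.one_mem

private theorem Lvl_Mn {A M : Subgroup Q} (hA : A.Normal) [M.Normal] (hMA : M ≤ A)
    (hab : ∀ x ∈ A, ∀ y ∈ A, x * y * x⁻¹ * y⁻¹ ∈ M)
    (hmin : ∀ L : Subgroup Q, L.Normal → M ≤ L → L ≤ A → L = M ∨ L = A) :
    Mn (A.map (QuotientGroup.mk' M)) := by
  refine ⟨hA.map _ (QuotientGroup.mk'_surjective M), ?_, ?_⟩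
  · rintro _ ⟨x, hx, rfl⟩ _ ⟨y, hy, rfl⟩
    have h1 : QuotientGroup.mk' M (x * y * x⁻¹ * y⁻¹) = 1 :=
      (QuotientGroup.eq_one_iff _).2 (hab x hx y hy)
    rw [map_mul, map_mul, map_mul, map_inv, map_inv] at h1
    rw [mul_inv_eq_one, mul_inv_eq_iff_eq_mul] at h1
    exact h1
  · intro L hL hLA
    have h1 : (L.comap (QuotientGroup.mk' M)).Normal := hL.comap _
    have h2 : L.comap (QuotientGroup.mk' M) ≤ A := by
      intro x hx
      exact Lvl_mem hMA (hLA hx)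
    rcases hmin _ h1 (Lvl_le_comap M L) h2 with h3 | h3
    · left
      rw [← Lvl_map_comap M L, h3, Subgroup.map_eq_bot_iff, QuotientGroup.ker_mk']
    · right
      rw [← Lvl_map_comap M L, h3]

private theorem Lvl_non {A₀ A M : Subgroup Q} [M.Normal] (hMA : M ≤ A) (hAA : A ≤ A₀)
    (hng : ∀ H : Subgroup Q, H ⊔ A₀ = ⊤ → H ⊔ M = ⊤) (H : Subgroup (Q ⧸ M))
    (h : H ⊔ A.map (QuotientGroup.mk' M) = ⊤) : H = ⊤ := by
  have h1 : H.comap (QuotientGroup.mk' M) ⊔ A = ⊤ := by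
    have h2 : (H.comap (QuotientGroup.mk' M) ⊔ A).map (QuotientGroup.mk' M) = ⊤ := by
      rw [Subgroup.map_sup, Lvl_map_comap, h]
    have h3 : M ≤ H.comap (QuotientGroup.mk' M) ⊔ A := hMA.trans le_sup_right
    rw [← Lvl_comap h3, h2, Subgroup.comap_top]
  have h4 : H.comap (QuotientGroup.mk' M) ⊔ A₀ = ⊤ := by
    rw [eq_top_iff, ← h1]
    exact sup_le_sup_left hAA _
  have h5 := hng _ h4
  rw [sup_eq_left.2 (Lvl_le_comap M H)] at h5
  rw [← Lvl_map_comap M H, h5]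
  exact Subgroup.map_top_of_surjective _ (QuotientGroup.mk'_surjective M)

/-! ### The values -/

private theorem Lvl_vls (M : Subgroup Q) [M.Normal] {g n : ℕ} (ρ : F g n →* Q) (l : ℕ) :
    vls ((QuotientGroup.mk' M).comp ρ) l = Lvl_m M (vls ρ l) := by
  unfold vls Lvl_m
  by_cases h : l < g
  · rw [dif_pos h, dif_pos h]
    rfl
  · rw [dif_neg h, dif_neg h]
    rfl

private theorem Lvl_lst (M : Subgroup Q) [M.Normal] {g n : ℕ} (ρ : F g n →* Q) (m k : ℕ) :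
    lst ((QuotientGroup.mk' M).comp ρ) m k = (lst ρ m k).map (Lvl_m M) := by
  unfold lst
  rw [List.map_map]
  congr 1
  funext i
  exact Lvl_vls M ρ (m + i)

private theorem Lvl_len_lst {g n : ℕ} (ρ : F g n →* Q) (m k : ℕ) : (lst ρ m k).length = k := by
  unfold lst
  rw [List.length_map, List.length_range]

private theorem Lvl_get {g n : ℕ} (ρ : F g n →* Q) (m k i : ℕ)
    (hi : i < (lst ρ m k).length) : (lst ρ m k)[i] = vls ρ (m + i) := by
  simp only [lst, List.getElem_map, List.getElem_range]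

private theorem Lvl_app {g n : ℕ} (ρ : F g n →* Q) (h k : ℕ) :
    lst ρ 0 (h + k) = lst ρ 0 h ++ lst ρ h k := by
  unfold lst
  rw [List.range_add, List.map_append, List.map_map]
  congr 1
  apply List.map_congr_left
  intro i _
  show vls ρ (0 + (h + i)) = vls ρ (h + i)
  rw [zero_add]

end

private theorem Lvl_Str_map {Q : Type} [Group Q] {A₀ M : Subgroup Q} [M.Normal]
    (W : Subgroup (Q ⧸ M)) (hng : ∀ H : Subgroup Q, H ⊔ A₀ = ⊤ → H ⊔ M = ⊤) {d : ℕ}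
    {L : List (Q × Q)} (h : Str A₀ d L) : Str W d (L.map (Lvl_m M)) := by
  obtain ⟨R₁, R₂, R₃, R₄, J, J', rfl, h1, h2, h3, h4, g1, g2, g3, g4⟩ := h
  have hG : ∀ R : List (Q × Q), Gn R ⊔ A₀ = ⊤ → Gn (R.map (Lvl_m M)) ⊔ W = ⊤ := by
    intro R hR
    rw [Lvl_Gn, Lvl_top M (hng _ hR), top_sup_eq]
  refine ⟨R₁.map (Lvl_m M), R₂.map (Lvl_m M), R₃.map (Lvl_m M), R₄.map (Lvl_m M), Lvl_m M J,
    Lvl_m M J', ?_, ?_, ?_, ?_, ?_, hG _ g1, hG _ g2, hG _ g3, hG _ g4⟩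
  · simp only [List.map_append, List.map_cons]
  · rw [List.length_map, h1]
  · rw [List.length_map, h2]
  · rw [List.length_map, h3]
  · rw [List.length_map, h4]

private theorem Lvl_Eqv {Q : Type} [Group Q] {A M : Subgroup Q} [M.Normal] (hMA : M ≤ A)
    {L L' : List (Q × Q)}
    (h : Eqv (A.map (QuotientGroup.mk' M)) (L.map (Lvl_m M)) (L'.map (Lvl_m M))) :
    Eqv A L L' := by
  unfold Eqv at h ⊢
  rw [List.forall₂_map_left_iff, List.forall₂_map_right_iff] at h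
  refine h.imp ?_
  rintro p q ⟨h1, h2⟩
  refine ⟨Lvl_mem hMA ?_, Lvl_mem hMA ?_⟩
  · rw [map_mul, map_inv]
    exact h1
  · rw [map_mul, map_inv]
    exact h2

theorem thm_Lvl (hEqb : St_Eqb) (hRea : St_Rea) (hIts : St_Its) : St_Lvl := by
  intro Q _ _ g n h d hg A₀ A M hA hM hMA hAA hab hmin hng ρ hρ
  obtain ⟨hInv, hStr⟩ := hρ
  have hMn := Lvl_Mn hA hMA hab hmin
  have hnon := Lvl_non hMA hAA hng
  have hS : Str (A.map (QuotientGroup.mk' M)) d
      (lst ((QuotientGroup.mk' M).comp ρ) h (4 * d + 2)) := by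
    rw [Lvl_lst]
    exact Lvl_Str_map _ hng hStr
  have hTs : ∀ p ∈ lst ((QuotientGroup.mk' M).comp ρ) 0 h,
      In (A.map (QuotientGroup.mk' M)) p := by
    intro p hp
    rw [Lvl_lst] at hp
    obtain ⟨q, hq, rfl⟩ := List.mem_map.1 hp
    unfold lst at hq
    obtain ⟨i, hi, rfl⟩ := List.mem_map.1 hq
    rw [List.mem_range] at hi
    have hig : 0 + i < g := by omega
    have h1 : vls ρ (0 + i) = (ρ (ga ⟨0 + i, hig⟩), ρ (gb ⟨0 + i, hig⟩)) := by
      unfold vls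
      rw [dif_pos hig]
    rw [h1]
    obtain ⟨h2, h3⟩ := hInv ⟨0 + i, hig⟩ (by simpa using hi)
    exact ⟨⟨_, h2, rfl⟩, ⟨_, h3, rfl⟩⟩
  obtain ⟨L', hL', hLG⟩ := hIts _ hMn hnon d _ _ hTs hS
  rw [← Lvl_app, Lvl_len_lst] at hLG
  obtain ⟨φ, hφ, h1, -⟩ := hRea _ _ (by omega) hLG
  refine ⟨φ, hφ, ?_, ?_⟩
  · -- the first handles
    rw [Lvl_app] at h1
    have h2 := (List.append_inj h1 (by rw [Lvl_len_lst, List.length_replicate])).1
    intro i hi
    have h3 : (i : ℕ) < (lst (((QuotientGroup.mk' M).comp ρ).comp (MulEquiv.toMonoidHom φ))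
        0 h).length := by
      rw [Lvl_len_lst]
      exact hi
    have h4 : (lst (((QuotientGroup.mk' M).comp ρ).comp (MulEquiv.toMonoidHom φ)) 0 h)[(i : ℕ)] =
        (1, 1) := by
      simp only [h2, List.getElem_replicate]
    rw [Lvl_get] at h4
    unfold vls at h4
    rw [dif_pos (by omega)] at h4
    have h5 : (⟨0 + (i : ℕ), by omega⟩ : Fin g) = i := Fin.ext (by simp)
    rw [h5, Prod.mk.injEq] at h4
    exact ⟨(QuotientGroup.eq_one_iff _).1 h4.1, (QuotientGroup.eq_one_iff _).1 h4.2⟩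
  · -- the blocks
    rw [Lvl_app] at h1
    have h2 := (List.append_inj h1 (by rw [Lvl_len_lst, List.length_replicate])).2
    rw [← h2, MonoidHom.comp_assoc, Lvl_lst, Lvl_lst] at hL'
    exact Lvl_str hEqb hA hAA hStr (Lvl_Eqv hMA hL')

end Pool.Agent.PWF
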