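import Pool.Agent.PWF.Cost
import Pool.Agent.PWB.KNil

/-!
# Campaign PWF: the module Nls (a nilpotent layer)
-/

set_option autoImplicit false

namespace Pool.Agent.PWF

open Pool.Agent.PW Pool.Agent.PWM Pool.Agent.PWB Pool.Agent.PWX Pool.Agent.PWS

/-- Trivial steps. -/
theorem Nls_pad {C : ℕ} {G : Type} [Group G] {s : ℕ} {N : Subgroup G} (h : Cost4 C G s N)
    (k : ℕ) : Cost4 C G (s + k) N := by
  induction k with
  | zero => exact h
  | succ k ih =>
    refine Cost4.cyclic ih le_rfl ?_ ⟨1, one_mem _, fun x hx => ⟨0, ?_⟩⟩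
    · intro x hx y hy
      exact mul_mem (mul_mem hx hy) (inv_mem hx)
    · simpa using hx

/-- Conjugation with elements of `N` when the commutators of `N` lie in `K ≤ M ≤ N`. -/
theorem Nls_conj {G : Type} [Group G] {N K M : Subgroup G}
    (hK : ∀ x ∈ N, ∀ y ∈ N, x * y * x⁻¹ * y⁻¹ ∈ K) (hKM : K ≤ M) (hMN : M ≤ N) :
    ∀ a ∈ N, ∀ b ∈ M, a * b * a⁻¹ ∈ M := by
  intro a ha b hb
  have h1 := mul_mem (hKM (hK a ha b (hMN hb))) hb
  simpa using h1

/-- The set of the products of a power of `c` and an element of `M` is a subgroup. -/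
def NlsSub {G : Type} [Group G] {M : Subgroup G} {c : G}
    (hc : ∀ k : ℤ, ∀ b ∈ M, c ^ k * b * (c ^ k)⁻¹ ∈ M) : Subgroup G where
  carrier := {x | ∃ k : ℤ, (c ^ k)⁻¹ * x ∈ M}
  one_mem' := ⟨0, by simp [one_mem]⟩
  mul_mem' := by
    rintro x y ⟨k, hx⟩ ⟨l, hy⟩
    refine ⟨k + l, ?_⟩
    have h1 := hc (-l) _ hx
    have h2 := mul_mem h1 hy
    have e : c ^ (-l) * ((c ^ k)⁻¹ * x) * (c ^ (-l))⁻¹ * ((c ^ l)⁻¹ * y) =
        (c ^ (k + l))⁻¹ * (x * y) := by
      rw [zpow_add, zpow_neg]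
      group
    rw [e] at h2
    exact h2
  inv_mem' := by
    rintro x ⟨k, hx⟩
    refine ⟨-k, ?_⟩
    have h1 := hc k _ (inv_mem hx)
    have e : c ^ k * ((c ^ k)⁻¹ * x)⁻¹ * (c ^ k)⁻¹ = (c ^ (-k))⁻¹ * x⁻¹ := by
      rw [zpow_neg]
      group
    rw [e] at h1
    exact h1

/-- The elements of the subgroup generated by `c` and `M`. -/
theorem Nls_cyc1 {G : Type} [Group G] {N K M : Subgroup G}
    (hK : ∀ x ∈ N, ∀ y ∈ N, x * y * x⁻¹ * y⁻¹ ∈ K) (hKM : K ≤ M) (hMN : M ≤ N)
    {c : G} (hc : c ∈ N) {x : G} (hx : x ∈ Subgroup.zpowers c ⊔ M) :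
    ∃ k : ℤ, (c ^ k)⁻¹ * x ∈ M := by
  have hcon : ∀ k : ℤ, ∀ b ∈ M, c ^ k * b * (c ^ k)⁻¹ ∈ M := fun k b hb =>
    Nls_conj hK hKM hMN _ (zpow_mem hc k) b hb
  have h1 : Subgroup.zpowers c ⊔ M ≤ NlsSub hcon := by
    refine sup_le ?_ ?_
    · rintro _ ⟨k, rfl⟩
      exact ⟨k, by simp [one_mem]⟩
    · intro b hb
      exact ⟨0, by simpa using hb⟩
  exact h1 hx

/-- Cyclic steps above a subgroup which contains the commutators of `N`. -/
theorem Nls_cyc {C : ℕ} {G : Type} [Group G] {N K : Subgroup G}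
    (hK : ∀ x ∈ N, ∀ y ∈ N, x * y * x⁻¹ * y⁻¹ ∈ K) (hKN : K ≤ N) (T : Finset G) :
    (∀ t ∈ T, t ∈ N) → ∀ u : ℕ, Cost4 C G u (Subgroup.closure (T : Set G) ⊔ K) →
    Cost4 C G (u + T.card) K := by
  classical
  induction T using Finset.induction_on with
  | empty =>
    intro _ u h
    simpa using h
  | insert s T hs ih =>
    intro hTN u h
    have hTN' : ∀ t ∈ T, t ∈ N := fun t ht => hTN t (Finset.mem_insert_of_mem ht)
    have hle1 : Subgroup.closure (T : Set G) ⊔ K ≤ N :=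
      sup_le ((Subgroup.closure_le _).2 (fun t ht => hTN' t ht)) hKN
    have hle2 : Subgroup.closure ((insert s T : Finset G) : Set G) ⊔ K ≤ N :=
      sup_le ((Subgroup.closure_le _).2 (fun t ht => hTN t ht)) hKN
    have h1 : Cost4 C G (u + 1) (Subgroup.closure (T : Set G) ⊔ K) := by
      refine Cost4.cyclic h ?_ ?_ ?_
      · refine sup_le_sup_right (Subgroup.closure_mono ?_) _
        simp
      · intro x hx y hy
        exact Nls_conj hK le_sup_right hle1 x (hle2 hx) y hy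
      · refine ⟨s, ?_, ?_⟩
        · exact Subgroup.mem_sup_left (Subgroup.subset_closure (by simp))
        · have hle : Subgroup.closure ((insert s T : Finset G) : Set G) ⊔ K ≤
              Subgroup.zpowers s ⊔ (Subgroup.closure (T : Set G) ⊔ K) := by
            refine sup_le ?_ ?_
            · rw [Subgroup.closure_le]
              intro z hz
              rw [Finset.coe_insert, Set.mem_insert_iff] at hz
              rcases hz with rfl | hz
              · exact Subgroup.mem_sup_left (Subgroup.mem_zpowers z)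
              · exact Subgroup.mem_sup_right (Subgroup.mem_sup_left
                  (Subgroup.subset_closure hz))
            · exact le_trans le_sup_right le_sup_right
          intro x hx
          exact Nls_cyc1 hK le_sup_right hle1 (hTN s (Finset.mem_insert_self _ _)) (hle hx)
    have h5 := ih hTN' (u + 1) h1
    rw [Finset.card_insert_of_notMem hs]
    have : u + (T.card + 1) = u + 1 + T.card := by ring
    rw [this]
    exact h5

/-- The image of `M ⊔ ⁅N, N⁆` in `N/M` lies in the commutator subgroup. -/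
theorem Nls_img {G : Type} [Group G] (N M : Subgroup G) [N.Normal] [M.Normal] (k : N)
    (hk : (k : G) ∈ M ⊔ ⁅N, N⁆) :
    (QuotientGroup.mk' (M.subgroupOf N) k) ∈ commutator (N ⧸ M.subgroupOf N) := by
  rw [Subgroup.mem_sup_of_normal_left] at hk
  obtain ⟨m, hm, c, hc, e⟩ := hk
  rw [← Subgroup.map_subtype_commutator] at hc
  obtain ⟨c', hc', rfl⟩ := hc
  have hmN : m ∈ N := by
    have : m = (k : G) * ((N.subtype c') : G)⁻¹ := by
      rw [← e]; group
    rw [this]
    exact mul_mem k.2 (inv_mem c'.2)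
  have e2 : k = ⟨m, hmN⟩ * c' := Subtype.ext e.symm
  rw [e2, map_mul]
  have h1 : QuotientGroup.mk' (M.subgroupOf N) ⟨m, hmN⟩ = 1 := by
    rw [QuotientGroup.mk'_apply, QuotientGroup.eq_one_iff]
    exact hm
  rw [h1, one_mul]
  have h2 : (commutator N).map (QuotientGroup.mk' (M.subgroupOf N)) =
      commutator (N ⧸ M.subgroupOf N) := by
    rw [commutator_def, commutator_def, Subgroup.map_commutator,
      Subgroup.map_top_of_surjective _ (QuotientGroup.mk'_surjective _)]
  rw [← h2]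
  exact Subgroup.mem_map_of_mem _ hc'

/-- In a nilpotent layer the commutators consist of non-generators. -/
theorem Nls_gen {G : Type} [Group G] [Finite G] (N M : Subgroup G) [N.Normal] [M.Normal]
    (hMN : M ≤ N) (hn : Group.IsNilpotent (N ⧸ M.subgroupOf N)) (H : Subgroup G)
    (hH : H ⊔ (M ⊔ ⁅N, N⁆) = ⊤) : H ⊔ M = ⊤ := by
  have := hn
  have hKN : M ⊔ ⁅N, N⁆ ≤ N := sup_le hMN (Subgroup.commutator_le_left _ _)
  have h1 : ((H ⊔ M).subgroupOf N).map (QuotientGroup.mk' (M.subgroupOf N)) ⊔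
      commutator (N ⧸ M.subgroupOf N) = ⊤ := by
    rw [eq_top_iff]
    intro q _
    obtain ⟨n, rfl⟩ := QuotientGroup.mk'_surjective _ q
    have h2 : (n : G) ∈ H ⊔ (M ⊔ ⁅N, N⁆) := by
      rw [hH]; exact Subgroup.mem_top _
    rw [Subgroup.mem_sup_of_normal_right] at h2
    obtain ⟨h, hh, k, hk, e⟩ := h2
    have hhN : h ∈ N := by
      have : h = (n : G) * k⁻¹ := by rw [← e]; group
      rw [this]
      exact mul_mem n.2 (inv_mem (hKN hk))
    have e2 : n = ⟨h, hhN⟩ * ⟨k, hKN hk⟩ := Subtype.ext e.symm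
    rw [e2, map_mul]
    refine mul_mem (Subgroup.mem_sup_left (Subgroup.mem_map_of_mem _ ?_))
      (Subgroup.mem_sup_right (Nls_img N M _ hk))
    rw [Subgroup.mem_subgroupOf]
    exact Subgroup.mem_sup_left hh
  have h2 := knil_frat _ h1
  have h3 : N ≤ H ⊔ M := by
    intro n hn'
    have h4 : QuotientGroup.mk' (M.subgroupOf N) ⟨n, hn'⟩ ∈
        ((H ⊔ M).subgroupOf N).map (QuotientGroup.mk' (M.subgroupOf N)) := by
      rw [h2]; exact Subgroup.mem_top _
    obtain ⟨y, hy, e⟩ := h4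
    rw [QuotientGroup.mk'_apply, QuotientGroup.mk'_apply, QuotientGroup.eq] at e
    rw [Subgroup.mem_subgroupOf] at e
    have h5 : n = (y : G) * ((y : G)⁻¹ * n) := by group
    rw [h5]
    exact mul_mem hy (Subgroup.mem_sup_right e)
  rw [eq_top_iff, ← hH]
  exact sup_le le_sup_left (le_trans hKN h3)

theorem thm_Nls : St_Nls := by
  classical
  intro G _ _ C s d r N M _ _ hc hMN hn hS hS'
  obtain ⟨S, hSr, hSN⟩ := hS
  obtain ⟨S', hSd, hSt⟩ := hS'
  have hKN : M ⊔ ⁅N, N⁆ ≤ N := sup_le hMN (Subgroup.commutator_le_left _ _)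
  have hK : ∀ x ∈ N, ∀ y ∈ N, x * y * x⁻¹ * y⁻¹ ∈ M ⊔ ⁅N, N⁆ := by
    intro x hx y hy
    exact Subgroup.mem_sup_right (Subgroup.commutator_mem_commutator hx hy)
  have hSN' : ∀ t ∈ S, t ∈ N := by
    intro t ht
    rw [← hSN]
    exact Subgroup.mem_sup_left (Subgroup.subset_closure ht)
  have hSK : Subgroup.closure (S : Set G) ⊔ (M ⊔ ⁅N, N⁆) = N := by
    refine le_antisymm (sup_le ((Subgroup.closure_le _).2 (fun t ht => hSN' t ht)) hKN) ?_
    nth_rewrite 1 [← hSN]
    exact sup_le_sup_left le_sup_left _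
  have h1 : Cost4 C G (s + S.card) (M ⊔ ⁅N, N⁆) := by
    refine Nls_cyc hK hKN S hSN' s ?_
    rw [hSK]
    exact hc
  have h2 : Cost4 C G (s + r) (M ⊔ ⁅N, N⁆) := by
    have h3 := Nls_pad h1 (r - S.card)
    have e : s + S.card + (r - S.card) = s + r := by omega
    rw [e] at h3
    exact h3
  refine Cost4.nongen h2 inferInstance inferInstance le_sup_left
    (fun H hH => Nls_gen N M hMN hn H hH) ⟨S' ∪ S, ?_, ?_⟩
  · exact le_trans (Finset.card_union_le _ _) (by omega)
  · rw [eq_top_iff, ← hSt]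
    refine sup_le ?_ ?_
    · refine le_trans (Subgroup.closure_mono ?_) le_sup_left
      simp
    · nth_rewrite 1 [← hSK]
      refine sup_le_sup_right (Subgroup.closure_mono ?_) _
      simp

end Pool.Agent.PWF
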