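import Pool.Agent.PWF.St

/-!
# Campaign PWF, module One: the second value of a handle is multiplied by an element of `V`
-/

set_option autoImplicit false

namespace Pool.Agent.PWF

open Pool.Agent.PW Pool.Agent.PWM Pool.Agent.PWB Pool.Agent.PWX

/-- pushing through a block behind one handle -/
private theorem One_blk (hPsb : St_Psb) (hBlk : St_Blk) {Q : Type} [Group Q] [Finite Q]
    {V : Subgroup Q} (hV : Mn V) {x : Q} (hx : x ∈ V) (J : Q × Q) (b q : Q)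
    {L L' : List (Q × Q)} (hL : Gn L = ⊤) (hE : Eqv V L L') :
    ∃ v ∈ V, ∃ L'', Eqv V L L'' ∧ Ps V x b (J :: L') (q * b * v) (J :: L'') := by
  obtain ⟨D, hD⟩ : ∃ D, D = Dp [J] := ⟨_, rfl⟩
  have hx1 : D⁻¹ * x * D ∈ V := by
    have := hV.nor.conj_mem x hx D⁻¹
    rwa [inv_inv] at this
  obtain ⟨v, hv, L'', hE', hP⟩ := hBlk V hV.nor hV.com _ hx1 (D⁻¹ * b * D) L L' hE
    (D⁻¹ * q * D) (by rw [hL]; exact Subgroup.mem_top _)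
  refine ⟨D * v * D⁻¹, hV.nor.conj_mem v hv D, L'', hE', ?_⟩
  have h1 := (hPsb V hV.nor).2.2.2.2 x b (q * b * (D * v * D⁻¹)) [J] L' L''
  rw [← hD] at h1
  refine h1 ?_
  have h2 : D⁻¹ * (q * b * (D * v * D⁻¹)) * D = D⁻¹ * q * D * (D⁻¹ * b * D) * v := by group
  rw [h2]
  exact hP

/-- the value `c x⁻¹ c⁻¹` -/
private theorem One_c (hPsb : St_Psb) (hSld : St_Sld) (hBlk : St_Blk) {Q : Type} [Group Q]
    [Finite Q] {V : Subgroup Q} (hV : Mn V) {x : Q} (hx : x ∈ V) (c α β : Q)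
    {L L' : List (Q × Q)} (hL : Gn L = ⊤) (hE : Eqv V L L') :
    ∃ δ ∈ V, ∃ (α'' : Q) (L'' : List (Q × Q)), α⁻¹ * α'' ∈ V ∧ Eqv V L L'' ∧
      Ps V x 1 ((α, β) :: L') δ ((α'', β * (c * x⁻¹ * c⁻¹)) :: L'') := by
  obtain ⟨hrefl, htrans, hmul, hctx, hskip⟩ := hPsb V hV.nor
  obtain ⟨v₀, hv₀, L₁, hE₁, hP₁⟩ := One_blk hPsb hBlk hV hx (α, β) 1 (α * c) hL hE
  rw [mul_one] at hP₁
  have hη : c * x * c⁻¹ = α⁻¹ * ((α * c * v₀) * x * (α * c * v₀)⁻¹) * α := by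
    have h1 : v₀ * x * v₀⁻¹ = x := by rw [hV.com v₀ hv₀ x hx, mul_inv_cancel_right]
    calc c * x * c⁻¹ = c * (v₀ * x * v₀⁻¹) * c⁻¹ := by rw [h1]
      _ = _ := by group
  have hP₂ := (hSld V hV.nor hV.com x hx (α * c * v₀) α β (c * x * c⁻¹)).1 hη
  have hP₃ := hctx _ _ _ _ _ L₁ hP₂
  obtain ⟨v₂, hv₂, L₂, hE₂, hP₄⟩ := One_blk hPsb hBlk hV hx
    (c * x * c⁻¹ * α * (c * x * c⁻¹)⁻¹, β * (c * x * c⁻¹)⁻¹) (α⁻¹ * (α * c * v₀))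
    (α⁻¹ * (α * c * v₀))⁻¹ hL hE₁
  rw [inv_mul_cancel, one_mul] at hP₄
  have hcx : c * x * c⁻¹ ∈ V := hV.nor.conj_mem x hx c
  refine ⟨v₂, hv₂, c * x * c⁻¹ * α * (c * x * c⁻¹)⁻¹, L₂, ?_, hE₂, ?_⟩
  · have h1 := hV.nor.conj_mem _ hcx α⁻¹
    rw [inv_inv] at h1
    have h2 := V.mul_mem h1 (V.inv_mem hcx)
    have h3 : α⁻¹ * (c * x * c⁻¹ * α * (c * x * c⁻¹)⁻¹) =
        α⁻¹ * (c * x * c⁻¹) * α * (c * x * c⁻¹)⁻¹ := by group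
    rw [h3]
    exact h2
  · have h4 : β * (c * x⁻¹ * c⁻¹) = β * (c * x * c⁻¹)⁻¹ := by group
    rw [h4]
    exact htrans _ _ _ _ _ _ _ hP₁ (htrans _ _ _ _ _ _ _ hP₃ hP₄)

theorem thm_One (hEqb : St_Eqb) (hPsb : St_Psb) (hSld : St_Sld) (hBlk : St_Blk) : St_One := by
  intro Q _ _ V hV x hx hx1 L hL
  obtain ⟨hrefl, htrans, hmul, hctx, hskip⟩ := hPsb V hV.nor
  obtain ⟨E, hE⟩ : ∃ E : Submonoid Q, ∀ v, v ∈ E ↔ (v ∈ V ∧
      ∀ (α β : Q) (L' : List (Q × Q)), Eqv V L L' →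
      ∃ δ ∈ V, ∃ (α'' : Q) (L'' : List (Q × Q)), α⁻¹ * α'' ∈ V ∧ Eqv V L L'' ∧
      Ps V x 1 ((α, β) :: L') δ ((α'', β * v) :: L'')) := by
    refine ⟨⟨⟨{v | v ∈ V ∧ ∀ (α β : Q) (L' : List (Q × Q)), Eqv V L L' →
      ∃ δ ∈ V, ∃ (α'' : Q) (L'' : List (Q × Q)), α⁻¹ * α'' ∈ V ∧ Eqv V L L'' ∧
      Ps V x 1 ((α, β) :: L') δ ((α'', β * v) :: L'')}, ?_⟩, ?_⟩, fun v => Iff.rfl⟩
    · rintro v v' ⟨hv, h1⟩ ⟨hv', h2⟩
      refine ⟨V.mul_mem hv hv', fun α β L' hL' => ?_⟩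
      obtain ⟨δ, hδ, α₁, L₁, ha₁, hE₁, hP₁⟩ := h1 α β L' hL'
      obtain ⟨δ', hδ', α₂, L₂, ha₂, hE₂, hP₂⟩ := h2 α₁ (β * v) L₁ hE₁
      refine ⟨δ' * δ, V.mul_mem hδ' hδ, α₂, L₂, ?_, hE₂, ?_⟩
      · have h3 : α⁻¹ * α₂ = α⁻¹ * α₁ * (α₁⁻¹ * α₂) := by group
        rw [h3]
        exact V.mul_mem ha₁ ha₂
      · have h4 := hmul _ _ _ δ _ _ hδ hP₂
        rw [one_mul, mul_assoc β v v'] at h4
        exact htrans _ _ _ _ _ _ _ hP₁ h4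
    · refine ⟨V.one_mem, fun α β L' hL' => ⟨1, V.one_mem, α, L', ?_, hL', ?_⟩⟩
      · rw [inv_mul_cancel]
        exact V.one_mem
      · rw [mul_one]
        exact hrefl _ _ _
  obtain ⟨E', hE'⟩ : ∃ E' : Subgroup Q, ∀ v, v ∈ E' ↔ v ∈ E := by
    refine ⟨⟨E, ?_⟩, fun v => Iff.rfl⟩
    intro v hv
    have h1 : v⁻¹ = v ^ (orderOf v - 1) := by
      have h2 : 0 < orderOf v := orderOf_pos v
      rw [inv_eq_iff_mul_eq_one, ← pow_succ', Nat.sub_add_cancel h2, pow_orderOf_eq_one]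
    show v⁻¹ ∈ E
    rw [h1]
    exact E.pow_mem hv _
  have hcl : Subgroup.normalClosure {x⁻¹} ≤ E' := by
    unfold Subgroup.normalClosure
    rw [Subgroup.closure_le]
    intro v hv
    obtain ⟨y, hy, hv⟩ := Group.mem_conjugatesOfSet_iff.1 hv
    rw [Set.mem_singleton_iff.1 hy] at hv
    obtain ⟨c, hc⟩ := isConj_iff.1 hv
    rw [SetLike.mem_coe, hE', hE, ← hc]
    exact ⟨hV.nor.conj_mem _ (V.inv_mem hx) c, fun α β L' hL' =>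
      One_c hPsb hSld hBlk hV hx c α β hL hL'⟩
  have hle : Subgroup.normalClosure {x⁻¹} ≤ V := by
    haveI := hV.nor
    refine Subgroup.normalClosure_le_normal ?_
    rintro y hy
    rw [Set.mem_singleton_iff.1 hy]
    exact V.inv_mem hx
  have hVE : V ≤ E' := by
    rcases hV.min _ Subgroup.normalClosure_normal hle with h | h
    · exfalso
      have h1 : x⁻¹ ∈ Subgroup.normalClosure {x⁻¹} :=
        Subgroup.subset_normalClosure (Set.mem_singleton _)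
      rw [h, Subgroup.mem_bot, inv_eq_one] at h1
      exact hx1 h1
    · rw [← h]
      exact hcl
  intro v hv
  exact ((hE v).1 ((hE' v).1 (hVE hv))).2

end Pool.Agent.PWF
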