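import Pool.Agent.PWF.St

/-!
# Campaign PWF, module Two (helper26): pushes around loops in the block and the second letter of a handle
-/

set_option autoImplicit false

namespace Pool.Agent.PWF

open Pool.Agent.PW Pool.Agent.PWM Pool.Agent.PWB Pool.Agent.PWX

/-- Congruence modulo a normal subgroup and the quotient. -/
private theorem Two_mem {Q : Type} [Group Q] {V : Subgroup Q} [V.Normal] {x y : Q} :
    x⁻¹ * y ∈ V ↔ QuotientGroup.mk' V x = QuotientGroup.mk' V y := by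
  rw [QuotientGroup.mk'_apply, QuotientGroup.mk'_apply, QuotientGroup.eq]

/-- In a finite group a property which is closed under products holds on the subgroup generated. -/
private theorem Two_clo {G : Type} [Group G] [Finite G] {S : Set G} {p : G → Prop} (h1 : p 1)
    (hm : ∀ a b, p a → p b → p (a * b)) (hs : ∀ s ∈ S, p s) : ∀ a ∈ Subgroup.closure S, p a := by
  have hpow : ∀ a, p a → ∀ n : ℕ, p (a ^ n) := by
    intro a ha n
    induction n with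
    | zero => rwa [pow_zero]
    | succ n ih =>
      rw [pow_succ]
      exact hm _ _ ih ha
  have hinv : ∀ a, p a → p a⁻¹ := by
    intro a ha
    have hc : 0 < Nat.card G := Nat.card_pos
    have h2 : a ^ (Nat.card G - 1) * a = 1 := by
      rw [← pow_succ, Nat.sub_add_cancel hc, pow_card_eq_one']
    rw [← eq_inv_of_mul_eq_one_left h2]
    exact hpow a ha _
  intro a ha
  refine Subgroup.closure_induction (p := fun a _ => p a) hs h1 (fun x y _ _ hx hy => hm x y hx hy)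
    (fun x _ hx => hinv x hx) ha

theorem thm_Two (hEqb : St_Eqb) (hPsb : St_Psb) (hSld : St_Sld) (hBlk : St_Blk) : St_Two := by
  intro Q _ _ V hV x hx L hL
  have hn : V.Normal := hV.nor
  obtain ⟨-, e2, e3, e4, -, -⟩ := hEqb V hV.nor
  obtain ⟨s1, s2, s3, s4, s5⟩ := hPsb V hV.nor
  have hcom := hV.com
  refine Two_clo ?_ ?_ ?_
  · -- the neutral element
    intro β L' hL'
    refine ⟨1, V.one_mem, β, L', ?_, hL', fun v α => ⟨α, ?_, ?_⟩⟩
    · rw [inv_mul_cancel]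
      exact V.one_mem
    · rw [inv_mul_cancel]
      exact V.one_mem
    · have e : (1 : Q) * (((1 : V → V) v : V) : Q) = 1 := by simp
      rw [e]
      exact s1 _ _ _
  · -- products
    intro a a' ha ha' β L' hL'
    obtain ⟨δ, hδ, β₁, L₁, hβ₁, hL₁, h1⟩ := ha β L' hL'
    obtain ⟨δ', hδ', β₂, L₂, hβ₂, hL₂, h2⟩ := ha' β₁ L₁ hL₁
    refine ⟨δ * δ', V.mul_mem hδ hδ', β₂, L₂, ?_, hL₂, fun v α => ?_⟩
    · rw [Two_mem] at hβ₁ hβ₂ ⊢
      rw [hβ₁, hβ₂]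
    · obtain ⟨α₁, hα₁, p1⟩ := h1 v α
      obtain ⟨α₂, hα₂, p2⟩ := h2 v α₁
      refine ⟨α₂, ?_, ?_⟩
      · rw [Two_mem] at hα₁ hα₂ ⊢
        rw [hα₁, hα₂]
      · have h3 : δ * a v ∈ V := V.mul_mem hδ (a v).2
        have p3 := s3 _ _ _ _ _ _ h3 p2
        rw [one_mul] at p3
        have p4 := s2 _ _ _ _ _ _ _ p1 p3
        have e : δ' * (a' v : Q) * (δ * (a v : Q)) = δ * δ' * (((a * a') v : V) : Q) := by
          have e1 : (((a * a') v : V) : Q) = (a v : Q) * (a' v : Q) := rfl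
          rw [e1, hcom _ (V.mul_mem hδ' (a' v).2) _ h3]
          calc δ * (a v : Q) * (δ' * (a' v : Q)) = δ * ((a v : Q) * δ') * (a' v : Q) := by group
            _ = δ * (δ' * (a v : Q)) * (a' v : Q) := by rw [hcom _ (a v).2 _ hδ']
            _ = δ * δ' * ((a v : Q) * (a' v : Q)) := by group
        rw [e] at p4
        exact p4
  · -- the conjugations
    rintro a ⟨q, hq⟩ β L' hL'
    obtain ⟨D, hD⟩ : ∃ D, D = Dp L' := ⟨_, rfl⟩
    obtain ⟨v₀, hv₀, L₁, hL₁, p1⟩ := hBlk V hn hcom x hx 1 L L' hL' (D * q⁻¹) (by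
      rw [hL]
      exact Subgroup.mem_top _)
    rw [mul_one] at p1
    obtain ⟨b, hb⟩ : ∃ b, b = D * q⁻¹ * v₀ := ⟨_, rfl⟩
    rw [← hb] at p1
    obtain ⟨D₁, hD₁⟩ : ∃ D₁, D₁ = Dp L₁ := ⟨_, rfl⟩
    have hz : D⁻¹ * D₁ ∈ V := by
      rw [hD, hD₁]
      exact (e4 L' L₁ (e3 _ _ _ (e2 _ _ hL') hL₁)).2
    obtain ⟨z, hz'⟩ : ∃ z, z = D⁻¹ * D₁ := ⟨_, rfl⟩
    rw [← hz'] at hz
    have hD₁z : D₁ = D * z := by
      rw [hz']
      group
    -- the elements of `V`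
    obtain ⟨x', hx'⟩ : ∃ x', x' = D₁⁻¹ * x * D₁ := ⟨_, rfl⟩
    have hx'V : x' ∈ V := by
      have := hn.conj_mem x hx D₁⁻¹
      rw [inv_inv] at this
      rw [hx']
      exact this
    obtain ⟨b', hb'⟩ : ∃ b', b' = D₁⁻¹ * b * D₁ := ⟨_, rfl⟩
    obtain ⟨ξ, hξ⟩ : ∃ ξ, ξ = b' * x' * b'⁻¹ := ⟨_, rfl⟩
    have hξV : ξ ∈ V := by
      rw [hξ]
      exact hn.conj_mem x' hx'V b'
    obtain ⟨η, hη⟩ : ∃ η, η = β * ξ * β⁻¹ := ⟨_, rfl⟩
    have hηV : η ∈ V := by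
      rw [hη]
      exact hn.conj_mem ξ hξV β
    have hηπ : QuotientGroup.mk' V η = 1 := by
      rw [← MonoidHom.mem_ker, QuotientGroup.ker_mk']
      exact hηV
    -- the second push through the block
    obtain ⟨c, hc⟩ : ∃ c, c = D₁ * β * D₁⁻¹ * b := ⟨_, rfl⟩
    obtain ⟨v₂, hv₂, L₂, hL₂, p3⟩ := hBlk V hn hcom x hx c L L₁ hL₁ c⁻¹ (by
      rw [hL]
      exact Subgroup.mem_top _)
    rw [inv_mul_cancel, one_mul] at p3
    refine ⟨v₂, hv₂, η * β * η⁻¹, L₂, ?_, hL₂, fun v α => ?_⟩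
    · rw [Two_mem, map_mul, map_mul, map_inv, hηπ]
      group
    have hvη : η = (β * v) * (b' * x' * b'⁻¹) * (β * v)⁻¹ := by
      rw [← hξ, hη]
      have h := hcom _ hξV _ v.2
      calc β * ξ * β⁻¹ = β * (ξ * v) * (v : Q)⁻¹ * β⁻¹ := by group
        _ = β * (v * ξ) * (v : Q)⁻¹ * β⁻¹ := by rw [h]
        _ = β * v * ξ * (β * v)⁻¹ := by group
    have p2 := (hSld V hn hcom x' hx'V b' α (β * v) η).2 hvη
    have e5 : η * (β * v) * η⁻¹ = η * β * η⁻¹ * v := by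
      have h := hcom _ hηV _ v.2
      have h' : (v : Q) * η⁻¹ = η⁻¹ * v := hcom _ v.2 _ (V.inv_mem hηV)
      calc η * (β * v) * η⁻¹ = η * β * (v * η⁻¹) := by group
        _ = η * β * (η⁻¹ * v) := by rw [h']
        _ = η * β * η⁻¹ * v := by group
    rw [e5] at p2
    refine ⟨η * (β * v)⁻¹ * η⁻¹ * (β * v) * α * η⁻¹, ?_, ?_⟩
    · rw [Two_mem]
      simp only [map_mul, map_inv, hηπ]
      group
    -- the value after the first two pushes
    have hav : b⁻¹ * D₁ * v * D₁⁻¹ * b = a v := by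
      rw [hq v, hb, hD₁z]
      have h1 : z * v = v * z := hcom _ hz _ v.2
      have h2 : q * v * q⁻¹ ∈ V := hn.conj_mem _ v.2 q
      have h3 := hcom _ h2 _ hv₀
      calc (D * q⁻¹ * v₀)⁻¹ * (D * z) * v * (D * z)⁻¹ * (D * q⁻¹ * v₀)
          = v₀⁻¹ * q * (z * v) * z⁻¹ * q⁻¹ * v₀ := by group
        _ = v₀⁻¹ * q * (v * z) * z⁻¹ * q⁻¹ * v₀ := by rw [h1]
        _ = v₀⁻¹ * (q * v * q⁻¹ * v₀) := by group
        _ = v₀⁻¹ * (v₀ * (q * v * q⁻¹)) := by rw [h3]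
        _ = q * v * q⁻¹ := by group
    have p4 : Ps V x b (L₁ ++ [(α, β * (v : Q))]) (c * a v)
        (L₁ ++ [(η * (β * v)⁻¹ * η⁻¹ * (β * v) * α * η⁻¹, η * β * η⁻¹ * v)]) := by
      refine s5 x b (c * a v) L₁ _ _ ?_
      rw [← hD₁, ← hx', ← hb']
      have e6 : D₁⁻¹ * (c * (a v : Q)) * D₁ = β * v * b' := by
        rw [← hav, hc, hb']
        group
      rw [e6]
      exact p2
    have p5 := s2 _ _ _ _ _ _ _ (s4 _ _ _ _ _ [(α, β * (v : Q))] p1) p4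
    have p6 := s3 _ _ _ _ _ _ (a v).2 (s4 _ _ _ _ _
      [(η * (β * v)⁻¹ * η⁻¹ * (β * v) * α * η⁻¹, η * β * η⁻¹ * (v : Q))] p3)
    exact s2 _ _ _ _ _ _ _ p5 p6

end Pool.Agent.PWF
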