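import Pool.Agent.PWF.Sym
import Pool.Agent.PWF.Bas
import Pool.Agent.PWF.Rea
import Pool.Agent.PWF.Eqb
import Pool.Agent.PWF.Psb
import Pool.Agent.PWF.Sld
import Pool.Agent.PWF.Blk
import Pool.Agent.PWF.Fre
import Pool.Agent.PWF.One
import Pool.Agent.PWF.Two
import Pool.Agent.PWF.Cnt
import Pool.Agent.PWF.Hlf
import Pool.Agent.PWF.Kil
import Pool.Agent.PWF.Its
import Pool.Agent.PWF.Lvl
import Pool.Agent.PWF.Abl
import Pool.Agent.PWF.Cha
import Pool.Agent.PWF.Cre
import Pool.Agent.PWF.FL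
import Pool.Agent.PWF.Nls
import Pool.Agent.PWF.Fin

/-!
Campaign PWF: assembly of the theorem on non-generators.
-/

set_option autoImplicit false

namespace Pool.Agent.PWF

theorem all_FL : St_FL := by
  have hSym : St_Sym := thm_Sym
  have hBas : St_Bas := thm_Bas hSym
  have hRea : St_Rea := thm_Rea
  have hEqb : St_Eqb := thm_Eqb
  have hPsb : St_Psb := thm_Psb hBas
  have hSld : St_Sld := thm_Sld hBas
  have hBlk : St_Blk := thm_Blk hEqb hPsb hSld
  have hFre : St_Fre := thm_Fre hBlk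
  have hOne : St_One := thm_One hEqb hPsb hSld hBlk
  have hTwo : St_Two := thm_Two hEqb hPsb hSld hBlk
  have hCnt : St_Cnt := thm_Cnt
  have hHlf : St_Hlf := thm_Hlf hEqb hPsb hOne hTwo hCnt
  have hKil : St_Kil := thm_Kil hBas hEqb hPsb hFre hHlf
  have hIts : St_Its := thm_Its hBas hEqb hKil
  have hLvl : St_Lvl := thm_Lvl hEqb hRea hIts
  have hAbl : St_Abl := thm_Abl
  have hCha : St_Cha := thm_Cha hLvl hAbl
  have hCre : St_Cre := thm_Cre
  have hFL : St_FL := thm_FL hCre hCha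
  exact @hFL

end Pool.Agent.PWF
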