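import Pool.Agent.PWF.St
import Pool.Agent.PWS.Cost

/-!
# Campaign PWF: the cost of a subgroup, with steps for non-generators and for `SL_2(F_p)`
-/

set_option autoImplicit false

namespace Pool.Agent.PWF

open Pool.Agent.PW Pool.Agent.PWM Pool.Agent.PWB Pool.Agent.PWX Pool.Agent.PWS

/-- The subgroup `N` of `G` can be reached from `⊤` with cost `s`.  Six kinds of steps from `N` to
a smaller subgroup `M`: `N/M` cyclic (cost 1), `N/M` an abelian chief factor of `G` (cost 1), `N/M`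
central in `G/M` and consisting of non-generators of `G/M` (no cost), `N` and `M` normal, `N/M`
consisting of non-generators of `G/M` and `G/N` generated by `d` elements (cost `4 d + 2`), any
subgroup `M` of index `r + 1` in `N` (cost `r`), and any subgroup `M` of `N` which contains the kernel
of a homomorphism from `N` to a quotient `S/T` of a subgroup `S` of `SL_2(F_p)` for some prime `p`
(cost `C`). -/
inductive Cost4 (C : ℕ) (G : Type) [Group G] : ℕ → Subgroup G → Prop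
  | top : Cost4 C G 0 ⊤
  | cyclic {s : ℕ} {N M : Subgroup G} : Cost4 C G s N → M ≤ N →
      (∀ x ∈ N, ∀ y ∈ M, x * y * x⁻¹ ∈ M) → (∃ c ∈ N, ∀ x ∈ N, ∃ k : ℤ, (c ^ k)⁻¹ * x ∈ M) →
      Cost4 C G (s + 1) M
  | chief {s : ℕ} {N M : Subgroup G} : Cost4 C G s N → N.Normal → M.Normal → M ≤ N →
      (∀ x ∈ N, ∀ y ∈ N, x * y * x⁻¹ * y⁻¹ ∈ M) →
      (∀ L : Subgroup G, L.Normal → M ≤ L → L ≤ N → L = M ∨ L = N) → Cost4 C G (s + 1) M
  | frattini {s : ℕ} {N M : Subgroup G} : Cost4 C G s N → N.Normal → M.Normal → M ≤ N →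
      (∀ x ∈ N, ∀ y, x * y * x⁻¹ * y⁻¹ ∈ M) → (∀ H : Subgroup G, H ⊔ N = ⊤ → H ⊔ M = ⊤) →
      Cost4 C G s M
  | nongen {s d : ℕ} {N M : Subgroup G} : Cost4 C G s N → N.Normal → M.Normal → M ≤ N →
      (∀ H : Subgroup G, H ⊔ N = ⊤ → H ⊔ M = ⊤) →
      (∃ S : Finset G, S.card ≤ d ∧ Subgroup.closure (S : Set G) ⊔ N = ⊤) →
      Cost4 C G (s + (4 * d + 2)) M
  | index {s r : ℕ} {N M : Subgroup G} : Cost4 C G s N → M ≤ N → M.relIndex N = r + 1 →
      Cost4 C G (s + r) M
  | sl2 {s : ℕ} {N M : Subgroup G} (p : ℕ) [Fact p.Prime]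
      (S : Subgroup (Matrix.SpecialLinearGroup (Fin 2) (ZMod p))) (T : Subgroup S) [T.Normal]
      (σ : N →* S ⧸ T) : Cost4 C G s N → M ≤ N → (∀ x : N, σ x = 1 → (x : G) ∈ M) →
      Cost4 C G (s + C) M

/-- The cost without the new steps. -/
theorem cost4_of_cost2 (C : ℕ) {G : Type} [Group G] {s : ℕ} {N : Subgroup G} (h : Cost2 G s N) :
    Cost4 C G s N := by
  induction h with
  | top => exact Cost4.top
  | cyclic _ h1 h2 h3 ih => exact Cost4.cyclic ih h1 h2 h3
  | chief _ h1 h2 h3 h4 h5 ih => exact Cost4.chief ih h1 h2 h3 h4 h5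
  | frattini _ h1 h2 h3 h4 h5 ih => exact Cost4.frattini ih h1 h2 h3 h4 h5
  | index _ h1 h2 ih => exact Cost4.index ih h1 h2

/-- After a mapping class the first `g - s` handles go to `N`, if `N` has cost `s`. -/
theorem go_of_cost4 (kcyc : St_KCyc) (kchr : St_KChr) (kchief : St_KChief) (kfrat : St_KFrat)
    (kind : PWX.St_Ind) (hFL : St_FL) {C : ℕ}
    (hC : ∀ (p : ℕ) [Fact p.Prime] (ρ : F C 0 →* SL p), Dead ρ)
    {Q : Type} [Group Q] [Finite Q] {g n s : ℕ} {N : Subgroup Q}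
    (hc : Cost4 C Q s N) (hs : s ≤ g) (ρ : F g n →* Q) (hρ : Function.Surjective ρ) :
    ∃ φ ∈ MCG g n, Inv (g - s) N (ρ.comp (MulEquiv.toMonoidHom φ)) := by
  induction hc with
  | top => exact ⟨1, (MCG g n).one_mem, fun i _ => ⟨Subgroup.mem_top _, Subgroup.mem_top _⟩⟩
  | @cyclic s N M _ hMN hn hc ih =>
    obtain ⟨φ, hφ, h1⟩ := ih (by omega)
    obtain ⟨m, X, hX⟩ := kchr hMN hn hc
    have e : g - s = (g - (s + 1)) + 1 := by omega
    rw [e] at h1
    obtain ⟨ψ, hψ, h2⟩ := kcyc hX (by omega) (ρ.comp (MulEquiv.toMonoidHom φ)) h1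
    exact ⟨φ * ψ, (MCG g n).mul_mem hφ hψ, h2⟩
  | @chief s N M _ hN hM hMN hab hmin ih =>
    obtain ⟨φ, hφ, h1⟩ := ih (by omega)
    have e : g - s = (g - (s + 1)) + 1 := by omega
    rw [e] at h1
    obtain ⟨ψ, hψ, h2⟩ := kchief (by omega) (ρ.comp (MulEquiv.toMonoidHom φ)) N M
      (hρ.comp φ.surjective) hN hM hMN hab hmin h1
    exact ⟨φ * ψ, (MCG g n).mul_mem hφ hψ, h2⟩
  | @frattini s N M _ hN hM hMN hz hg ih =>
    obtain ⟨φ, hφ, h1⟩ := ih hs
    obtain ⟨ψ, hψ, h2⟩ := kfrat (by omega) (ρ.comp (MulEquiv.toMonoidHom φ)) N M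
      (hρ.comp φ.surjective) hN hM hMN hz hg h1
    exact ⟨φ * ψ, (MCG g n).mul_mem hφ hψ, h2⟩
  | @nongen s d N M _ hN hM hMN hg hd ih =>
    obtain ⟨φ, hφ, h1⟩ := ih (by omega)
    have e : g - s = (g - (s + (4 * d + 2))) + (4 * d + 2) := by omega
    rw [e] at h1
    obtain ⟨ψ, hψ, h2⟩ := hFL (by omega) (ρ.comp (MulEquiv.toMonoidHom φ)) N M
      (hρ.comp φ.surjective) hN hM hMN hg hd h1
    exact ⟨φ * ψ, (MCG g n).mul_mem hφ hψ, h2⟩
  | @index s r N M _ hMN hr ih =>
    obtain ⟨φ, hφ, h1⟩ := ih (by omega)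
    have e : g - s = (g - (s + r)) + r := by omega
    rw [e] at h1
    obtain ⟨ψ, hψ, h2⟩ := kind (by omega) (ρ.comp (MulEquiv.toMonoidHom φ)) N M hr h1
    exact ⟨φ * ψ, (MCG g n).mul_mem hφ hψ, h2⟩
  | @sl2 s N M p _ S T _ σ _ hMN hσ ih =>
    obtain ⟨φ, hφ, h1⟩ := ih (by omega)
    rcases Nat.eq_zero_or_pos (g - (s + C)) with h0 | h0
    · refine ⟨φ, hφ, fun i hi => ?_⟩
      rw [h0] at hi
      exact absurd hi (Nat.not_lt_zero _)
    · let A : Subgroup (F g n) := N.comap ρ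
      let τ : A →* S ⧸ T := σ.comp (ρ.subgroupComap N)
      obtain ⟨φ', hφ', h2⟩ := Itr_step (m := g - (s + C)) (m' := g - s)
        (dead_of_section (hC p) S T) (by omega) (by omega) A τ hφ (fun i hi => h1 i hi)
      refine ⟨φ', hφ', fun i hi => ?_⟩
      obtain ⟨⟨a1, a2⟩, b1, b2⟩ := h2 i hi
      exact ⟨hσ ⟨ρ (φ' (ga i)), a1⟩ a2, hσ ⟨ρ (φ' (gb i)), b1⟩ b2⟩

/-- (Nls) A nilpotent layer.
Proof.  Let `K` be the subgroup generated by `M` and the commutators of elements of `N` (normal in `G`, `M ≤ K ≤ N`).  Let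
`S` (first) have `r` elements, `closure S ⊔ M = N`.  Removing the elements of `S` one after the other gives a chain of
at most `r` subgroups `closure S' ⊔ K` from `N` down to `K`; all of them contain the commutators of `N`, so they are normalised by
`N`, and the factors are cyclic (compare the proof of `PWB.st_KNil`, file PWB/KNil): `Cost4 C G (s + r) K` (use `index` steps with `r = 0`, or
trivial cyclic steps, if `S` has fewer than `r` elements).  Then `nongen` from `K` to `M` with `d + r` (the two sets together): if `H ⊔ K = ⊤`, let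
`H' = H ⊔ M`; then `N = (H' ⊓ N) ⊔ K` (modular law, `K ≤ N`), and in the nilpotent group `N/M` a subgroup which together with the
commutator subgroup generates everything is everything (a proper subgroup lies in a maximal one, which is normal
of prime index and so contains the commutators, see PWB/KNil); so `N ≤ H'`, `K ≤ H'`, `H' = ⊤`. -/
def St_Nls : Prop := ∀ {G : Type} [Group G] [Finite G] (C s d r : ℕ) (N M : Subgroup G) [N.Normal]
  [M.Normal], Cost4 C G s N → M ≤ N → Group.IsNilpotent (N ⧸ M.subgroupOf N) →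
  (∃ S : Finset G, S.card ≤ r ∧ Subgroup.closure (S : Set G) ⊔ M = N) →
  (∃ S : Finset G, S.card ≤ d ∧ Subgroup.closure (S : Set G) ⊔ N = ⊤) →
  Cost4 C G (s + r + (4 * (d + r) + 2)) M

/-- (Nil) A series of nilpotent layers.
Proof.  Induction on `k`, `St_Nls` with `d = k r` (the union of the sets `S` of the layers above generates `G`
together with `N k`): the cost grows by `r + 4 (k + 1) r + 2`. -/
def St_Nil : Prop := ∀ {G : Type} [Group G] [Finite G] (C r k : ℕ) (N : ℕ → Subgroup G)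
  [∀ i, (N i).Normal], N 0 = ⊤ → (∀ i < k, N (i + 1) ≤ N i ∧
    Group.IsNilpotent (N i ⧸ (N (i + 1)).subgroupOf (N i)) ∧
    ∃ S : Finset G, S.card ≤ r ∧ Subgroup.closure (S : Set G) ⊔ N (i + 1) = N i) →
  Cost4 C G (2 * k * (k + 1) * r + k * r + 2 * k) (N k)

end Pool.Agent.PWF
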