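import Pool.Agent.PWX.Basic

/-!
# Campaign PWF: definitions

Systems of handle values as lists.  `LG l l'`: the moves of `PWX.Go` lead from the list `l` to the
list `l'` at every place of every system.  `Ps V x b L b' L'`: a foot of the handle `(x, b)` is pushed
through the handles of the list `L` on its right; the first value `x` does not change and everything is
compatible with the multiplication of `b` from the right by elements of the subgroup `V`.
-/

set_option autoImplicit false

namespace Pool.Agent.PWF

open Pool.Agent.PW Pool.Agent.PWM Pool.Agent.PWB Pool.Agent.PWX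

variable {Q : Type} [Group Q]

/-- The list `l` stands at the places `m, m + 1, ...` of the system `x`. -/
def At (m : ℕ) (l : List (Q × Q)) (x : ℕ → Q × Q) : Prop :=
  ∀ i, ∀ h : i < l.length, x (m + i) = l[i]

/-- The moves lead from `l` to `l'`, at every place of every system. -/
def LG (l l' : List (Q × Q)) : Prop :=
  l.length = l'.length ∧ ∀ (m : ℕ) (x : ℕ → Q × Q), At m l x →
    ∃ y, Go m (m + l.length) x y ∧ At m l' y

/-- The push of a foot of the handle `(x, b)` through the list `L` on its right. -/
def Ps (V : Subgroup Q) (x b : Q) (L : List (Q × Q)) (b' : Q) (L' : List (Q × Q)) : Prop :=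
  ∀ y ∈ V, LG ((x, b * y) :: L) ((x, b' * y) :: L')

/-- Two pairs are congruent modulo `V`. -/
def Eqp (V : Subgroup Q) (p q : Q × Q) : Prop := p.1⁻¹ * q.1 ∈ V ∧ p.2⁻¹ * q.2 ∈ V

/-- Two lists are congruent modulo `V`. -/
def Eqv (V : Subgroup Q) (L L' : List (Q × Q)) : Prop := List.Forall₂ (Eqp V) L L'

/-- The subgroup generated by the entries of a list. -/
def Gn (L : List (Q × Q)) : Subgroup Q := Subgroup.closure {q | ∃ p ∈ L, q = p.1 ∨ q = p.2}

/-- The product of the commutators of the pairs of a list. -/
def Dp (L : List (Q × Q)) : Q := (L.map dd).prod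

/-- `V` is a commutative minimal normal subgroup. -/
structure Mn (V : Subgroup Q) : Prop where
  nor : V.Normal
  com : ∀ x ∈ V, ∀ y ∈ V, x * y = y * x
  min : ∀ L : Subgroup Q, L.Normal → L ≤ V → L = ⊥ ∨ L = V

/-- The pointwise products of the conjugations on `V`. -/
def Cg (V : Subgroup Q) : Subgroup (V → V) :=
  Subgroup.closure {a | ∃ q : Q, ∀ v : V, ((a v : V) : Q) = q * v * q⁻¹}

/-- The values of the `k` handles from the place `m` on. -/
def lst {g n : ℕ} (ρ : F g n →* Q) (m k : ℕ) : List (Q × Q) :=
  (List.range k).map fun i => vls ρ (m + i)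

end Pool.Agent.PWF
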