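import Pool.Agent.PWF.St

/-!
# Campaign PWF, module FL: non-generators cost `4 d + 2` handles
-/

set_option autoImplicit false

namespace Pool.Agent.PWF

open Pool.Agent.PW Pool.Agent.PWM Pool.Agent.PWB Pool.Agent.PWX

theorem thm_FL (hCre : St_Cre) (hCha : St_Cha) : St_FL := by
  intro Q _ _ g n h d hg ρ N M hρ hN hM hMN hng hS hI
  obtain ⟨φ, hφ, h1⟩ := hCre hg ρ N hρ hN hS hI
  obtain ⟨ψ, hψ, h2⟩ := hCha hg N N M hN hM hMN le_rfl hng
    (ρ.comp (MulEquiv.toMonoidHom φ)) h1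
  exact ⟨φ * ψ, (MCG g n).mul_mem hφ hψ, h2.1⟩

end Pool.Agent.PWF
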