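import Pool.Agent.PWF.Defs
import Pool.Agent.PWX.St

/-!
# Campaign PWF: statements (handles in subgroups of non-generators)

Aim (`St_FL`): let `ρ : F g n →* Q` be surjective, `M ≤ N` normal in `Q`, `N/M` consisting of
non-generators of `Q/M`, `Q/N` generated by `d` elements.  If `h + 4 d + 2` handles go to `N` then
after a mapping class `h` handles go to `M`: the step from `N` to `M` costs `4 d + 2` handles, whatever
the length of `N/M` is.

Idea.  One chief factor `V` at a time (`V ≤ Q` a commutative minimal normal subgroup of non-generators).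
`T = (x, y)` is a handle with values in `V`; to the right of it stand blocks of handles `R₁, R₂, R₃, R₄`,
each of which generates `Q`, and two more handles `J, J'`.  Pushing a foot of `T` around a loop in the
blocks changes `y` and multiplies the values of the blocks by elements of `V`; they still
generate `Q`.  The loop `(β of J) * (word in R₁)` and the loops around the other letter of `J` and
`R₂` intersect once, which gives more than `|V| / 2` values of the change of `y` (`St_Cnt`, `St_Hlf`).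
The same with `J', R₃, R₄`; so (pigeonhole) `y` can be made `1`, then `T` is killed.
-/

set_option autoImplicit false

namespace Pool.Agent.PWF

open Pool.Agent.PW Pool.Agent.PWM Pool.Agent.PWB Pool.Agent.PWX

/-! ### Moves on lists -/

/-- (Sym) The moves can be undone.
Proof.  It is enough to treat one `Step`.  For a fixed kind of move and a fixed place `l` let `f` be the map
`x ↦ y` (the right-hand side of the constructor, a function of `x`).  `f` is injective: swap: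
`q = y l` and `p = cj (dd q) (y (l+1))`; rot: `(r₁, r₂) ↦ (r₁ r₂ r₁⁻¹, r₁⁻¹)`; slide: `y (l+1)` has the same second
entry `t`, the first entry `s'` of `y (l+1)` and `tv` of the old pair...: let `p, q` be old, `p', q'` new, `ξ = p.2 p.1 p.2⁻¹`,
`τ = tv q = q.1 q.2 q.1⁻¹`; then `tv q' = τ⁻¹ ξ τ q.1 q.2 q.1⁻¹ τ⁻¹ ξ⁻¹ τ = τ⁻¹ ξ τ ξ⁻¹ τ`, and
`ξ' = p'.2 p'.1 p'.2⁻¹ = τ⁻¹ ξ τ`, so `ξ'⁻¹ (tv q') ξ' = τ⁻¹ ξ⁻¹ τ τ⁻¹ ξ τ ξ⁻¹ τ τ⁻¹ ξ τ = τ⁻¹ τ τ = τ`; this recovers `τ`, then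
`p.2 = τ p'.2`, `q.1 = ξ'⁻¹ q'.1`.  `f` changes only the places `l, l + 1`, so the iterates `f^[k] x` lie in a finite set
(functions which agree with `x` off these places, `Q` finite); two of them agree, by injectivity
`f^[k] x = x` for some `k ≥ 1`, and `x` is reached from `f x` by `k - 1` moves. -/
def St_Sym : Prop := ∀ {Q : Type} [Group Q] [Finite Q] {lo hi : ℕ} {x y : ℕ → Q × Q},
  Go lo hi x y → Go lo hi y x

/-- (Bas) Calculus of `LG`.
Proof.  refl, trans: from the definition (`Go.refl`, `Go.trans`; the lengths agree).  symm: `St_Sym`, applied as follows: given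
`x'` with `At m l' x'` let `x` be `x'` with the places `m + i`, `i < l.length`, replaced by `l[i]`; then there is `y` with
`Go m _ x y`, `At m l' y`; `y = x'` (outside by `Go.out`), so `Go m _ x' x`.  app: given `x` with `At m (p ++ l ++ q) x` apply
the hypothesis at the place `m + p.length`; the other places do not change (`Go.out`), `Go.mono`.  The moves: one `Step`. -/
def St_Bas : Prop :=
  (∀ {Q : Type} [Group Q] (l : List (Q × Q)), LG l l) ∧
  (∀ {Q : Type} [Group Q] (l l' l'' : List (Q × Q)), LG l l' → LG l' l'' → LG l l'') ∧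
  (∀ {Q : Type} [Group Q] [Finite Q] (l l' : List (Q × Q)), LG l l' → LG l' l) ∧
  (∀ {Q : Type} [Group Q] (p l l' q : List (Q × Q)), LG l l' → LG (p ++ l ++ q) (p ++ l' ++ q)) ∧
  (∀ {Q : Type} [Group Q] (p q : Q × Q), LG [p, q] [q, cj (dd q)⁻¹ p]) ∧
  (∀ {Q : Type} [Group Q] (p : Q × Q), LG [p] [rt p]) ∧
  ∀ {Q : Type} [Group Q] (p q : Q × Q), LG [p, q] [(p.1, (tv q)⁻¹ * p.2),
    ((tv q)⁻¹ * (p.2 * p.1 * p.2⁻¹) * tv q * q.1, q.2)]

/-- (Rea) The moves on lists are realised by mapping classes.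
Proof.  `LG` for the system `vls ρ` at the place `m` gives `y` with `Go m (m + k) (vls ρ) y`; `Go.mono` and the proven
`PWX.st_Real : St_Real` (file PWX/Real) give `φ` with `vls (ρ.comp φ) = y`; `Go.out` for the other places. -/
def St_Rea : Prop := ∀ {Q : Type} [Group Q] {g n m k : ℕ} (ρ : F g n →* Q) (l' : List (Q × Q)),
  m + k ≤ g → LG (lst ρ m k) l' → ∃ φ ∈ MCG g n,
    lst (ρ.comp (MulEquiv.toMonoidHom φ)) m k = l' ∧
    ∀ l, l < m ∨ m + k ≤ l → vls (ρ.comp (MulEquiv.toMonoidHom φ)) l = vls ρ l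

/-! ### Congruences -/

/-- (Eqb) Calculus of the congruences.
Proof.  refl, symm, trans, app: from `List.Forall₂` and `V` a normal subgroup (symm: `q⁻¹ p = (p⁻¹ q)⁻¹`).  Dp: modulo `V`
(in `Q ⧸ V`) both products are equal (induction on the list).  Gn: every entry of `L'` is an entry of `L` times an
element of `V ≤ A`, and conversely, so `Gn L ⊔ A ≤ Gn L' ⊔ A`.  cj: `D' = D v` with `v ∈ V` commuting with `x` and with `D⁻¹ x D`. -/
def St_Eqb : Prop := ∀ {Q : Type} [Group Q] (V : Subgroup Q), V.Normal →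
  (∀ L : List (Q × Q), Eqv V L L) ∧
  (∀ L L' : List (Q × Q), Eqv V L L' → Eqv V L' L) ∧
  (∀ L L' L'' : List (Q × Q), Eqv V L L' → Eqv V L' L'' → Eqv V L L'') ∧
  (∀ L L' : List (Q × Q), Eqv V L L' → L.length = L'.length ∧ (Dp L)⁻¹ * Dp L' ∈ V) ∧
  (∀ (A : Subgroup Q) (L L' : List (Q × Q)), V ≤ A → Eqv V L L' → Gn L ⊔ A = ⊤ → Gn L' ⊔ A = ⊤) ∧
  ((∀ x ∈ V, ∀ y ∈ V, x * y = y * x) → ∀ D D' x : Q, D⁻¹ * D' ∈ V → x ∈ V →
    D⁻¹ * x * D = D'⁻¹ * x * D' ∧ D * x * D⁻¹ = D' * x * D'⁻¹)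

/-! ### The calculus of pushes -/

/-- (Psb) Calculus of pushes.
Proof.  refl, trans: `St_Bas`.  mul: `(b v) y = b (v y)` with `v y ∈ V`.  ctx: app of `St_Bas` with `p = []`.  skip: induction on `P`
(from the right or from the left); for one handle `H`, `D = dd H`, `y ∈ V`: swap
`(x, b y) :: H :: L` to `H :: (D⁻¹ x D, D⁻¹ b y D) :: L` and `D⁻¹ b y D = (D⁻¹ b D) (D⁻¹ y D)` with `D⁻¹ y D ∈ V`; the hypothesis (in the context `[H]` on the
left) leads to `H :: (D⁻¹ x D, (D⁻¹ b' D) (D⁻¹ y D)) :: L'`; the swap backwards (symm) to `(x, b' y) :: H :: L'`.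
For `P = H :: P'`: `Dp P = dd H * Dp P'`, so `(Dp P)⁻¹ x (Dp P) = (Dp P')⁻¹ (D⁻¹ x D) (Dp P')`. -/
def St_Psb : Prop := ∀ {Q : Type} [Group Q] [Finite Q] (V : Subgroup Q), V.Normal →
  (∀ (x b : Q) (L : List (Q × Q)), Ps V x b L b L) ∧
  (∀ (x b b' b'' : Q) (L L' L'' : List (Q × Q)), Ps V x b L b' L' → Ps V x b' L' b'' L'' →
    Ps V x b L b'' L'') ∧
  (∀ (x b b' v : Q) (L L' : List (Q × Q)), v ∈ V → Ps V x b L b' L' →
    Ps V x (b * v) L (b' * v) L') ∧
  (∀ (x b b' : Q) (L L' M : List (Q × Q)), Ps V x b L b' L' → Ps V x b (L ++ M) b' (L' ++ M)) ∧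
  ∀ (x b b' : Q) (P L L' : List (Q × Q)),
    Ps V ((Dp P)⁻¹ * x * Dp P) ((Dp P)⁻¹ * b * Dp P) L ((Dp P)⁻¹ * b' * Dp P) L' →
    Ps V x b (P ++ L) b' (P ++ L')

/-- (Sld) The two pushes around the letters of a handle `(α, β)`.
Proof.  `y ∈ V`; `(b y) x (b y)⁻¹ = b x b⁻¹` because `x, y ∈ V` commute.
First: rotate `(α, β)` to `(β⁻¹, β α β⁻¹)`, whose `tv` is `α` (`tv_rt`), slide: `(x, α⁻¹ b y)` and `(η β⁻¹, β α β⁻¹)`; rotate
backwards (symm; `rt (r₁ r₂ r₁⁻¹, r₁⁻¹) = (r₁, r₂)`): `(η α η⁻¹, β η⁻¹)`.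
Second: rotate twice: `(β α⁻¹ β⁻¹, β α β⁻¹ α⁻¹ β⁻¹)`, `tv = β⁻¹` (`tv_rt2`), slide: `(x, β b y)` and
`(η β α⁻¹ β⁻¹, β α β⁻¹ α⁻¹ β⁻¹)`, rotate backwards twice: `(η β⁻¹ η⁻¹, β α β⁻¹ η⁻¹)`, then
`(η β⁻¹ η⁻¹ β α η⁻¹, η β η⁻¹)`. -/
def St_Sld : Prop := ∀ {Q : Type} [Group Q] [Finite Q] (V : Subgroup Q), V.Normal →
  (∀ x ∈ V, ∀ y ∈ V, x * y = y * x) → ∀ x ∈ V, ∀ b α β η : Q,
  (η = α⁻¹ * (b * x * b⁻¹) * α →
    Ps V x b [(α, β)] (α⁻¹ * b) [(η * α * η⁻¹, β * η⁻¹)]) ∧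
  (η = β * (b * x * b⁻¹) * β⁻¹ →
    Ps V x b [(α, β)] (β * b) [(η * β⁻¹ * η⁻¹ * β * α * η⁻¹, η * β * η⁻¹)])

/-- (Blk) Pushing through a block.
Proof.  Induction on `L` (for all `x ∈ V`, `b`, `L'`).  Let `E` be the set of the `u` for which the conclusion holds for all
`x ∈ V`, `b`, `L'`.  It contains `1` and is closed under products (`u₁ (u₂ b v) v'`; trans), `Q` is finite, so it is a
subgroup.  `L = []`: `Gn L = ⊥`.  `L = (α, β) :: L₁`, `L' = (α', β') :: L₁'` with `α' = α z`, `z ∈ V`: the first push of `St_Sld` (with ctx) gives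
`α'⁻¹ b = z⁻¹ α⁻¹ b = α⁻¹ b ((α⁻¹ b)⁻¹ z⁻¹ (α⁻¹ b))`, so `α⁻¹ ∈ E` (the new pair is congruent to the old one since `η ∈ V`), the second one
in the same way `β ∈ E`.  For `w ∈ Gn L₁`: skip over `H' = (α', β')`, `D' = dd H'`, and the induction hypothesis for
`D'⁻¹ x D'`, `D'⁻¹ b D'`, `L₁'` lead to `D' w D'⁻¹ b (D' v D'⁻¹)`, and `D' w D'⁻¹ b = (D w D⁻¹) b v'` with `v' ∈ V`, `D = dd (α, β)` (`D⁻¹ D' ∈ V`); so
`D w D⁻¹ ∈ E`, and `w ∈ E` because `D ∈ E`. -/
def St_Blk : Prop := ∀ {Q : Type} [Group Q] [Finite Q] (V : Subgroup Q), V.Normal →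
  (∀ x ∈ V, ∀ y ∈ V, x * y = y * x) → ∀ x ∈ V, ∀ (b : Q) (L L' : List (Q × Q)), Eqv V L L' →
  ∀ u ∈ Gn L, ∃ v ∈ V, ∃ L'', Eqv V L L'' ∧ Ps V x b L' (u * b * v) L''

/-- (Fre) A handle whose first value is `1` is pushed freely.
Proof.  `St_Blk` with `V = ⊥`, `x = 1`, `L' = L` (congruence modulo `⊥` is equality), at `y = 1`. -/
def St_Fre : Prop := ∀ {Q : Type} [Group Q] [Finite Q] (L : List (Q × Q)), Gn L = ⊤ →
  ∀ b b' : Q, LG ((1, b) :: L) ((1, b') :: L)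

/-- (One) The second value of `J = (α, β)` can be multiplied by any `v ∈ V`.
Proof.  Fix `x`, `L`.  Let `E` be the set of the `v ∈ V` for which the conclusion holds for all `α`, `β`, `L'`.  It contains `1`; it is
closed under products: do `v`, then `v'` from `(α'', β v)`, `L''`; the second push starts at `1` and ends at `δ'`, by mul from `δ` to `δ' δ`.  `V` is
finite, so `E` is (the carrier of) a subgroup.  It contains `c x⁻¹ c⁻¹` for all `c : Q`: put `q = α c`.  Push through `L` (skip over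
`J`, `D = dd J`, `St_Blk` for `D⁻¹ x D`, `u = D⁻¹ q D`): from `1` to `q v₀` (`D (D⁻¹ q D) (D⁻¹ 1 D) v D⁻¹ = q (D v D⁻¹)`).  First push of `St_Sld` around `J`: to
`α⁻¹ q v₀`, `J` becomes `(η α η⁻¹, β η⁻¹)` with `η = α⁻¹ q x q⁻¹ α = c x c⁻¹`.  Push through `L` again (skip over the new `J`), with `u` such
that the value `(α⁻¹ q v₀)` is brought to an element of `V`.  So `E` generates a normal subgroup of `Q`
contained in `V` and containing `x⁻¹ ≠ 1`: `E = V`. -/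
def St_One : Prop := ∀ {Q : Type} [Group Q] [Finite Q] (V : Subgroup Q), Mn V → ∀ x ∈ V, x ≠ 1 →
  ∀ L : List (Q × Q), Gn L = ⊤ → ∀ v ∈ V, ∀ (α β : Q) (L' : List (Q × Q)), Eqv V L L' →
  ∃ δ ∈ V, ∃ (α'' : Q) (L'' : List (Q × Q)), α⁻¹ * α'' ∈ V ∧ Eqv V L L'' ∧
    Ps V x 1 ((α, β) :: L') δ ((α'', β * v) :: L'')

/-- (Two) Pushes around loops in `L` and the second letter of `J`; the effect of multiplying this letter by `v`.
Proof.  Fix `x`, `L`.  Let `E` be the set of the `a : V → V` for which the conclusion holds (for all `β`, `L'`).  It contains `1` and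
is closed under products: do `a` (`δ, β₁, L₁`), then `a'` from `β₁`, `L₁` (`δ'`): by mul the value is `δ' a'(v) δ a(v)`, and everything
in `V` commutes: `(δ' δ) ((a' a) v)`.  (The order of the quantifiers is important: `δ, β'', L''` do not depend on `v` and `α`.)
`V → V` is finite, so `E` is a subgroup.  It contains the map `v ↦ q v q⁻¹` for `q : Q`: let `D = Dp L'`, `b₀ = D q⁻¹`.
Push through `L'` (`St_Blk`, ctx, `u = b₀`): from `1` to `b = b₀ v₀`, `L' ↦ L₁`.  Let `D₁ = Dp L₁` (`D⁻¹ D₁ ∈ V`).  Skip over `L₁`, second push of `St_Sld` around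
`(α, β v)`: from `b` to `D₁ (β v) D₁⁻¹ b = (D₁ β D₁⁻¹ b) (b⁻¹ D₁ v D₁⁻¹ b)` and `b⁻¹ D₁ v D₁⁻¹ b = q v q⁻¹` (`D₁ = D z`, conjugation by elements of `V` is trivial
on `V`); `β v` becomes `η β v η⁻¹ = (η β η⁻¹) v`, with `η = (β v) ξ (β v)⁻¹ = β ξ β⁻¹`, `ξ = (D₁⁻¹ b D₁) (D₁⁻¹ x D₁) (D₁⁻¹ b D₁)⁻¹`, independent of `v`, `α`.  Push through
`L₁` again from `D₁ β D₁⁻¹ b` to an element `δ ∈ V` (`St_Blk`; then mul by `q v q⁻¹`). -/
def St_Two : Prop := ∀ {Q : Type} [Group Q] [Finite Q] (V : Subgroup Q), Mn V → ∀ x ∈ V,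
  ∀ L : List (Q × Q), Gn L = ⊤ → ∀ a ∈ Cg V, ∀ (β : Q) (L' : List (Q × Q)), Eqv V L L' →
  ∃ δ ∈ V, ∃ (β'' : Q) (L'' : List (Q × Q)), β⁻¹ * β'' ∈ V ∧ Eqv V L L'' ∧
    ∀ (v : V) (α : Q), ∃ α'' : Q, α⁻¹ * α'' ∈ V ∧
      Ps V x 1 (L' ++ [(α, β * v)]) (δ * a v) (L'' ++ [(α'', β'' * v)])

/-- (Cnt) Counting.
Proof.  Every `a ∈ Cg V` is an endomorphism of the commutative group `V`.  For `w ≠ 1` in `V` the homomorphism `Cg V → V`,
`a ↦ a w`, is onto: its image contains all conjugates of `w`, and the subgroup of `Q` generated by them is normal, in `V`, not trivial.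
So every fibre has `|Cg V| / |V|` elements.  The number of the triples `(a, v, v')`, `v ≠ v'`, with `a v * f v = a v' * f v'`, i.e.
`a (v * v'⁻¹) = f v' * (f v)⁻¹`, is `|V| (|V| - 1) |Cg V| / |V|`; so for some `a` there are at most `|V| - 1` pairs
`v ≠ v'` with the same value of `v ↦ a v * f v`.  If `I` is the image of this map, `|V|² ≤ |I| (|V| + |V| - 1)` (Cauchy-Schwarz,
`|V| = ∑ nᵢ`, `∑ nᵢ² = |V| + #pairs`), so `|I| > |V| / 2`. -/
def St_Cnt : Prop := ∀ {Q : Type} [Group Q] [Finite Q] (V : Subgroup Q), Mn V → ∀ f : V → V,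
  ∃ a ∈ Cg V, Nat.card V < 2 * (Set.range fun v => a v * f v).ncard

/-- (Hlf) More than half of `V` is reached.
Proof.  Let `D = Dp R₂`, `x₂ = D⁻¹ x D ∈ V`, `≠ 1`.  For `v : V` `St_One` for `x₂`, `R₁`, `L' = R₁` gives `δ v ∈ V`, `α v`, `R₁ v`; by
skip `Ps V x 1 (R₂ ++ (α, β) :: R₁) (D * δ v * D⁻¹) (R₂ ++ (α v, β * v) :: R₁ v)`.  Put `f v = D * δ v * D⁻¹ ∈ V` and take `a` from `St_Cnt`.
`St_Two` for `x`, `R₂`, `a`, `β`, `L' = R₂` gives `δ₂` and for each `v` the push of `(R₂ ++ [(α v, β * v)])` from `1` to `δ₂ * a v`; with ctx `R₁ v`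
and mul by `f v`: to `δ₂ * a v * f v`.  `S` is the set of the `δ₂ * (a v * f v)`, it has as many elements as the range in `St_Cnt`. -/
def St_Hlf : Prop := ∀ {Q : Type} [Group Q] [Finite Q] (V : Subgroup Q), Mn V → ∀ x ∈ V, x ≠ 1 →
  ∀ (R₂ R₁ : List (Q × Q)) (J : Q × Q), Gn R₂ = ⊤ → Gn R₁ = ⊤ → ∃ S : Set Q, S ⊆ V ∧
    Nat.card V < 2 * S.ncard ∧ ∀ s ∈ S, ∃ L', Eqv V (R₂ ++ J :: R₁) L' ∧
      Ps V x 1 (R₂ ++ J :: R₁) s L'

/-- Four blocks of `d` handles, each of which generates `Q` together with `A`, and two more handles. -/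
def Str {Q : Type} [Group Q] (A : Subgroup Q) (d : ℕ) (L : List (Q × Q)) : Prop :=
  ∃ (R₁ R₂ R₃ R₄ : List (Q × Q)) (J J' : Q × Q), L = (R₁ ++ J :: R₂) ++ (R₃ ++ J' :: R₄) ∧
    R₁.length = d ∧ R₂.length = d ∧ R₃.length = d ∧ R₄.length = d ∧
    Gn R₁ ⊔ A = ⊤ ∧ Gn R₂ ⊔ A = ⊤ ∧ Gn R₃ ⊔ A = ⊤ ∧ Gn R₄ ⊔ A = ⊤

/-- (Kil) One handle is killed.
Proof.  All four blocks generate `Q`.  `x = 1`: `St_Fre` for the block `R₁` (app for the rest).  `x ≠ 1`: let `L = LA ++ LB` as in `Str`,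
`SA` from `St_Hlf` for `x`, `LA`; `D = Dp LA`, `SB` from `St_Hlf` for `D⁻¹ x D`, `LB`.  `{s * y | s ∈ SA}` and `{(D * s' * D⁻¹)⁻¹ | s' ∈ SB}` are subsets of `V` with more than
`|V| / 2` elements, so for some `s, s'` one has `(D * s' * D⁻¹) * s * y = 1`.  Push from `1` to `s` through `LA` (ctx), `LA ↦ LA'`; let `D' = Dp LA'`, by `St_Eqb`
`D'⁻¹ x D' = D⁻¹ x D` and `D' s' D'⁻¹ = D s' D⁻¹`; skip over `LA'`, push from `1` to `s'` through `LB`; mul.  At `y`: `(x, y)` becomes `(x, 1)`.  Rotate: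
`rt (x, 1) = (1, x)`, and apply the first case (the new list is congruent to the old one, so its blocks generate `Q`
together with `V`, hence generate `Q`). -/
def St_Kil : Prop := ∀ {Q : Type} [Group Q] [Finite Q] (V : Subgroup Q), Mn V →
  (∀ H : Subgroup Q, H ⊔ V = ⊤ → H = ⊤) → ∀ (d : ℕ) (L : List (Q × Q)), Str V d L →
  ∀ x ∈ V, ∀ y ∈ V, ∃ L', Eqv V L L' ∧ LG ((x, y) :: L) ((1, 1) :: L')

/-- (Its) All the handles of a list with values in `V` are killed.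
Proof.  Induction on the length of `Ts`.  `Ts = Ts' ++ [T]`: `St_Kil` (with `Ts'` on the left) leads to `Ts' ++ (1, 1) :: L₁`.  The dead handle
goes to the left end by swaps: `[p, (1, 1)]` becomes `[(1, 1), p]` (`dd (1, 1) = 1`).  Then the induction hypothesis
for `Ts'`, `L₁` (`Str V d L₁` because `L₁` is congruent to `L`: split the list with `List.Forall₂` and `St_Eqb`). -/
def St_Its : Prop := ∀ {Q : Type} [Group Q] [Finite Q] (V : Subgroup Q), Mn V →
  (∀ H : Subgroup Q, H ⊔ V = ⊤ → H = ⊤) → ∀ (d : ℕ) (Ts L : List (Q × Q)), (∀ p ∈ Ts, In V p) →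
  Str V d L → ∃ L', Eqv V L L' ∧ LG (Ts ++ L) (List.replicate Ts.length (1, 1) ++ L')

/-! ### Surfaces -/

/-- The state of the induction: the first `h` handles go to `A`, the next `4 d + 2` handles contain four
blocks which generate `Q` together with `A₀`. -/
def Sta {Q : Type} [Group Q] {g n : ℕ} (ρ : F g n →* Q) (h d : ℕ) (A₀ A : Subgroup Q) : Prop :=
  Inv h A ρ ∧ Str A₀ d (lst ρ h (4 * d + 2))

/-- (Lvl) One chief factor.
Proof.  Let `π : Q → Q ⧸ M`, `V = A.map π`: `Mn V` (normal; commutative by the hypothesis; minimal: comap of a normal subgroup), and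
`H ⊔ V = ⊤` implies `H = ⊤` (for `H.comap π`: `H.comap π ⊔ A = ⊤`, so `H.comap π ⊔ A₀ = ⊤`, so `H.comap π ⊔ M = ⊤`, and `M ≤ H.comap π`).  The list `lst (π ρ) 0 (h + (4 d + 2))` is `Ts ++ L`
with `Ts = lst (π ρ) 0 h` (entries in `V`) and `L = lst (π ρ) h (4 d + 2)`, the image of `lst ρ h (4 d + 2)`; each of the blocks generates `Q ⧸ M`:
`Gn R ⊔ A₀ = ⊤` gives `Gn R ⊔ M = ⊤`, so the image of `Gn R` is `⊤`.  `St_Its`, `St_Rea` for `π ρ` give `φ`.  The first `h` handles of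
`ρ φ` go to `M`.  The image of `lst (ρ φ) h (4 d + 2)` under `π` is congruent to the image of `lst ρ h (4 d + 2)` modulo `V`, so the
two lists are congruent modulo `A ≤ A₀`, and `Str A₀ d` holds for the new one (`St_Eqb`). -/
def St_Lvl : Prop := ∀ {Q : Type} [Group Q] [Finite Q] {g n h d : ℕ}, h + (4 * d + 2) ≤ g →
  ∀ A₀ A M : Subgroup Q, A.Normal → M.Normal → M ≤ A → A ≤ A₀ →
  (∀ x ∈ A, ∀ y ∈ A, x * y * x⁻¹ * y⁻¹ ∈ M) →
  (∀ L : Subgroup Q, L.Normal → M ≤ L → L ≤ A → L = M ∨ L = A) →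
  (∀ H : Subgroup Q, H ⊔ A₀ = ⊤ → H ⊔ M = ⊤) → ∀ ρ : F g n →* Q, Sta ρ h d A₀ A →
  ∃ φ ∈ MCG g n, Sta (ρ.comp (MulEquiv.toMonoidHom φ)) h d A₀ M

/-- (Abl) Chief factors which consist of non-generators are commutative.
Proof.  Pass to `Q ⧸ M`: `V = N/M` is a minimal normal subgroup and `H ⊔ V = ⊤` implies `H = ⊤`.  If `V = ⊥` nothing to do.  Let `p` be a prime divisor
of `|V|` and `P` a Sylow subgroup of `V`.  Frattini's argument (`Sylow.normalizer_sup_eq_top`) gives `N(P) ⊔ V = ⊤`, so `N(P) = ⊤`: `P` is normal,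
so `P = V` (minimality) is a `p`-group.  The centre of `V` is not trivial (`IsPGroup.center_nontrivial`) and characteristic in `V`, so normal
in `Q`, so it is `V`. -/
def St_Abl : Prop := ∀ {Q : Type} [Group Q] [Finite Q] (N M : Subgroup Q), N.Normal → M.Normal →
  M ≤ N → (∀ L : Subgroup Q, L.Normal → M ≤ L → L ≤ N → L = M ∨ L = N) →
  (∀ H : Subgroup Q, H ⊔ N = ⊤ → H ⊔ M = ⊤) → ∀ x ∈ N, ∀ y ∈ N, x * y * x⁻¹ * y⁻¹ ∈ M

/-- (Cha) A chain of chief factors.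
Proof.  Strong induction on the order of `A`.  `A = M`: `φ = 1`.  Otherwise let `B` be maximal among the normal subgroups with `M ≤ B < A`: `A/B`
is a chief factor, commutative by `St_Abl` (`H ⊔ A = ⊤` gives `H ⊔ A₀ = ⊤`, `H ⊔ M = ⊤`, `H ⊔ B = ⊤`).  `St_Lvl` from `A` to `B`, induction from `B` to `M`. -/
def St_Cha : Prop := ∀ {Q : Type} [Group Q] [Finite Q] {g n h d : ℕ}, h + (4 * d + 2) ≤ g →
  ∀ A₀ A M : Subgroup Q, A.Normal → M.Normal → M ≤ A → A ≤ A₀ →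
  (∀ H : Subgroup Q, H ⊔ A₀ = ⊤ → H ⊔ M = ⊤) → ∀ ρ : F g n →* Q, Sta ρ h d A₀ A →
  ∃ φ ∈ MCG g n, Sta (ρ.comp (MulEquiv.toMonoidHom φ)) h d A₀ M

/-- (Cre) The blocks are created.
Proof.  In `Q ⧸ N` the first `h + (4 d + 2) =: k` handles are dead; the image of `Fge g n k` is everything (`ρ` is surjective; compare the proof of
`PWB.St_KFrat`, file PWB/KFrat).  `PWB.St_KPush` (proven: `PWB.st_KPush`) for `Q ⧸ N`, the subgroup `⊥`, the block of the first `k` handles, the handle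
`i` and `y ∈ Fge g n k` with a given image `q`: the handle `i` gets the values `(1, q)`, the other handles of the block and the images of
the elements of `Fge g n k` do not change.  Do this for the handles `i = h + j`, `j < 4 d + 2`, one after the other, with values
chosen so that the second values in each of the four blocks run through (the images of) the elements of `S` (repeat or use `1` if
`S.card < d`).  `Gn R ⊔ N = ⊤` for each block `R`: modulo `N` it contains `S`. -/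
def St_Cre : Prop := ∀ {Q : Type} [Group Q] [Finite Q] {g n h d : ℕ}, h + (4 * d + 2) ≤ g →
  ∀ (ρ : F g n →* Q) (N : Subgroup Q), Function.Surjective ρ → N.Normal →
  (∃ S : Finset Q, S.card ≤ d ∧ Subgroup.closure (S : Set Q) ⊔ N = ⊤) →
  Inv (h + (4 * d + 2)) N ρ →
  ∃ φ ∈ MCG g n, Sta (ρ.comp (MulEquiv.toMonoidHom φ)) h d N N

/-- (FL) Non-generators cost `4 d + 2` handles.
Proof.  `St_Cre`, then `St_Cha` with `A₀ = A = N`. -/
def St_FL : Prop := ∀ {Q : Type} [Group Q] [Finite Q] {g n h d : ℕ}, h + (4 * d + 2) ≤ g →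
  ∀ (ρ : F g n →* Q) (N M : Subgroup Q), Function.Surjective ρ → N.Normal → M.Normal → M ≤ N →
  (∀ H : Subgroup Q, H ⊔ N = ⊤ → H ⊔ M = ⊤) →
  (∃ S : Finset Q, S.card ≤ d ∧ Subgroup.closure (S : Set Q) ⊔ N = ⊤) →
  Inv (h + (4 * d + 2)) N ρ →
  ∃ φ ∈ MCG g n, Inv h M (ρ.comp (MulEquiv.toMonoidHom φ))

end Pool.Agent.PWF
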